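import Pool.Agent.H596.U.Meas

/-!
# Near relations are exact relations nearby
-/

open Filter

namespace H596.U

theorem transfer {σ τ : Type} [Fintype σ] [Fintype τ] {x : σ → ℂ} (hx : Meas x) (d B k₀ : ℕ) :
    ∃ k : ℕ, ∀ H : ℝ, 2 ≤ H → ∀ t : τ → ℂ, (∀ i, ‖t i‖ ≤ H ^ B) →
      ∃ t' : τ → ℂ, (∀ i, ‖t' i - t i‖ * H ^ k₀ ≤ 1) ∧
        ∀ P : MvPolynomial (τ ⊕ σ) ℤ, P.totalDegree ≤ d →
          (∀ m, |((P.coeff m : ℤ) : ℝ)| ≤ H) →
          ‖MvPolynomial.aeval (Sum.elim t' x) P - MvPolynomial.aeval (Sum.elim t x) P‖ *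
            H ^ k₀ ≤ 1 ∧
          (‖MvPolynomial.aeval (Sum.elim t x) P‖ * H ^ k ≤ 1 →
            MvPolynomial.aeval (Sum.elim t' x) P = 0) := by
  classical
  by_contra hcon
  push Not at hcon
  choose h h2 t ht hno using hcon
  let U : Ultrafilter ℕ := hyperfilter ℕ
  obtain ⟨L, hLx, hLZ, hL⟩ := base (U := U) h2 hx
  have htb : ∀ i, Bd h (cl U fun n => t n i) := fun i =>
    bd_cl.2 ⟨B, Eventually.of_forall fun n => ht n i⟩
  obtain ⟨s, L', hLL, hsL, hL', hs⟩ := ext_many h2 hL (fun i => cl U fun n => t n i) htb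
  choose t' ht' using fun i => cl_surj (s i)
  have hclose : ∀ᶠ n in U, ∀ i, ‖t' i n - t n i‖ * h n ^ k₀ ≤ 1 := by
    rw [Filter.eventually_all]
    intro i
    have h3 := hs i
    rw [← ht' i, ← map_sub, sm_cl] at h3
    exact h3 k₀
  have hP : ∀ n, ∃ P : MvPolynomial (τ ⊕ σ) ℤ, P.totalDegree ≤ d ∧
      (∀ m, |((P.coeff m : ℤ) : ℝ)| ≤ h n) ∧
      ((∀ i, ‖t' i n - t n i‖ * h n ^ k₀ ≤ 1) →
        ‖MvPolynomial.aeval (Sum.elim (fun i => t' i n) x) P -
          MvPolynomial.aeval (Sum.elim (t n) x) P‖ * h n ^ k₀ ≤ 1 →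
        ‖MvPolynomial.aeval (Sum.elim (t n) x) P‖ * h n ^ n ≤ 1 ∧
        MvPolynomial.aeval (Sum.elim (fun i => t' i n) x) P ≠ 0) := by
    intro n
    by_cases hc : ∀ i, ‖t' i n - t n i‖ * h n ^ k₀ ≤ 1
    · obtain ⟨P, h3, h4, h5⟩ := hno n (fun i => t' i n) hc
      exact ⟨P, h3, h4, fun _ => h5⟩
    · exact ⟨0, by simp, fun m => by simpa using by linarith [h2 n], fun h => absurd h hc⟩
  choose P hPd hPH hPn using hP
  have hPH' : ∀ᶠ n in U, ∀ m, |(((P n).coeff m : ℤ) : ℝ)| ≤ h n ^ 1 :=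
    Eventually.of_forall fun n m => by rw [pow_one]; exact hPH n m
  -- the two families of points
  let S : τ ⊕ σ → ℕ → ℂ := fun j n => Sum.elim (t n) x j
  let S' : τ ⊕ σ → ℕ → ℂ := fun j n => Sum.elim (fun i => t' i n) x j
  have hS'L : ∀ j, cl U (S' j) ∈ L' := by
    rintro (i | j)
    · change cl U (t' i) ∈ L'
      rw [ht' i]
      exact hsL i
    · exact hLL (hLx j)
  have hSb : ∀ j, Bd h (cl U (S j)) := by
    rintro (i | j)
    · exact htb i
    · exact const_bd h2 _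
  have hSS : ∀ j, Sm h (cl U (S' j) - cl U (S j)) := by
    rintro (i | j)
    · change Sm h (cl U (t' i) - _)
      rw [ht' i]
      exact hs i
    · change Sm h (cl U (fun _ => x j) - cl U (fun _ => x j))
      rw [sub_self]
      exact Sm.zero
  have hmem := aeval_mem (L := L') (fun n hn => hLL (hLZ n hn)) S' hS'L d P hPd 1 hPH'
  have hsm1 := sm_aeval_sub h2 S' S (fun j => hL' _ (hS'L j)) hSb hSS d P hPd 1 hPH'
  have hcl2 : ∀ᶠ n in U, ‖MvPolynomial.aeval (Sum.elim (fun i => t' i n) x) (P n) -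
          MvPolynomial.aeval (Sum.elim (t n) x) (P n)‖ * h n ^ k₀ ≤ 1 := by
    have h3 := hsm1
    rw [← map_sub, sm_cl] at h3
    exact h3 k₀
  have hsm2 : Sm h (cl U (fun n => MvPolynomial.aeval (fun j => S j n) (P n))) := by
    rw [sm_cl]
    intro C
    have hge : ∀ᶠ n : ℕ in U, C ≤ n := by
      have : ∀ᶠ n : ℕ in cofinite, C ≤ n := by
        rw [Nat.cofinite_eq_atTop]
        exact eventually_ge_atTop C
      exact this.filter_mono (by exact Filter.hyperfilter_le_cofinite)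
    filter_upwards [hge, hclose, hcl2] with n hn h3 h4
    refine le_trans ?_ (hPn n h3 h4).1
    have h1 : (1 : ℝ) ≤ h n := by linarith [h2 n]
    exact mul_le_mul_of_nonneg_left (pow_le_pow_right₀ h1 hn) (norm_nonneg _)
  have hsm : Sm h (cl U (fun n => MvPolynomial.aeval (fun j => S' j n) (P n))) := by
    have := hsm1.add h2 hsm2
    rwa [sub_add_cancel] at this
  have h0 := hsm.eq_zero_of_mem h2 hL' hmem
  rw [← map_zero (cl U)] at h0
  obtain ⟨n, ⟨hn1, hn2⟩, hn3⟩ := (((cl_eq.1 h0).and hclose).and hcl2).exists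
  exact (hPn n hn2 hn3).2 hn1

/-- the polynomial in one variable which is obtained by the substitution of `x` -/
noncomputable def spec {σ : Type} (x : σ → ℂ) (P : MvPolynomial (Unit ⊕ σ) ℤ) : Polynomial ℂ :=
  MvPolynomial.aeval (Sum.elim (fun _ => Polynomial.X) fun j => Polynomial.C (x j)) P

theorem eval_spec {σ : Type} (x : σ → ℂ) (P : MvPolynomial (Unit ⊕ σ) ℤ) (t : ℂ) :
    (spec x P).eval t = MvPolynomial.aeval (Sum.elim (fun _ => t) x) P := by
  rw [spec, ← Polynomial.coe_evalRingHom, MvPolynomial.map_aeval, MvPolynomial.aeval_def,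
    MvPolynomial.coe_eval₂Hom]
  congr 1
  · exact RingHom.ext_int _ _
  · funext j
    rcases j with j | j <;> simp

theorem spec_coeff {σ : Type} [Fintype σ] (x : σ → ℂ) (P : MvPolynomial (Unit ⊕ σ) ℤ) (d : ℕ)
    (hP : P.totalDegree ≤ d) (i : ℕ) :
    (spec x P).coeff i = ∑ m ∈ Pool.Agent.H596.Q.box (Unit ⊕ σ) d,
      if m (Sum.inl ()) = i then ((P.coeff m : ℤ) : ℂ) * ∏ j, x j ^ m (Sum.inr j) else 0 := by
  classical
  rw [spec, MvPolynomial.aeval_def, MvPolynomial.eval₂_eq']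
  have h1 : ∑ m ∈ P.support, (algebraMap ℤ (Polynomial ℂ)) (P.coeff m) *
      ∏ j, Sum.elim (fun _ => Polynomial.X) (fun j => Polynomial.C (x j)) j ^ m j =
      ∑ m ∈ Pool.Agent.H596.Q.box (Unit ⊕ σ) d, (algebraMap ℤ (Polynomial ℂ)) (P.coeff m) *
      ∏ j, Sum.elim (fun _ => Polynomial.X) (fun j => Polynomial.C (x j)) j ^ m j := by
    refine Finset.sum_subset (fun m hm => ?_) fun m _ hm => ?_
    · refine Pool.Agent.H596.Q.mem_box d m fun i => ?_
      have h1 := MvPolynomial.le_totalDegree hm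
      have h3 : m i ≤ m.sum fun _ e => e := by
        rw [Finsupp.sum_fintype _ _ fun _ => rfl]
        exact Finset.single_le_sum (f := fun j => m j) (fun _ _ => Nat.zero_le _)
          (Finset.mem_univ i)
      omega
    · rw [MvPolynomial.notMem_support_iff.1 hm]
      simp
  rw [h1, Polynomial.finsetSum_coeff]
  refine Finset.sum_congr rfl fun m _ => ?_
  rw [Fintype.prod_sum_type]
  simp only [Finset.univ_unique, PUnit.default_eq_unit, Finset.prod_singleton, Sum.elim_inl,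
    Sum.elim_inr]
  have h4 : (algebraMap ℤ (Polynomial ℂ)) (P.coeff m) * (Polynomial.X ^ m (Sum.inl ()) *
      ∏ j, Polynomial.C (x j) ^ m (Sum.inr j)) =
      Polynomial.C (((P.coeff m : ℤ) : ℂ) * ∏ j, x j ^ m (Sum.inr j)) *
        Polynomial.X ^ m (Sum.inl ()) := by
    rw [map_mul, map_prod]
    simp only [map_pow]
    simp only [eq_intCast, Polynomial.C_eq_intCast]
    ring
  rw [h4, Polynomial.coeff_C_mul, Polynomial.coeff_X_pow]
  split_ifs with h5 h6 h6
  · ring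
  · exact absurd h5.symm h6
  · exact absurd h6.symm h5
  · ring

theorem spec_natDegree {σ : Type} [Fintype σ] (x : σ → ℂ) (P : MvPolynomial (Unit ⊕ σ) ℤ) (d : ℕ)
    (hP : P.totalDegree ≤ d) : (spec x P).natDegree ≤ d := by
  classical
  rw [Polynomial.natDegree_le_iff_coeff_eq_zero]
  intro i hi
  rw [spec_coeff x P d hP i]
  refine Finset.sum_eq_zero fun m hm => ?_
  rw [if_neg]
  have := box_le hm (Sum.inl ())
  omega

/-- The roots of bounded polynomials are algebraic over the base field. -/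
theorem isAlgebraic_root {ι : Type} {U : Ultrafilter ι} {h : ι → ℝ} {σ : Type} [Fintype σ]
    {x : σ → ℂ} {L : Subfield (F U)} (hLx : ∀ j, cl U (fun _ => x j) ∈ L)
    (hLZ : ∀ n : ι → ℤ, Bd h (cl U fun i => (n i : ℂ)) → cl U (fun i => (n i : ℂ)) ∈ L)
    (t : ι → ℂ) (d : ℕ) (P : ι → MvPolynomial (Unit ⊕ σ) ℤ) (hP : ∀ i, (P i).totalDegree ≤ d)
    (C : ℕ) (hPC : ∀ᶠ i in U, ∀ m, |(((P i).coeff m : ℤ) : ℝ)| ≤ h i ^ C)
    (hP0 : ∀ᶠ i in U, spec x (P i) ≠ 0)
    (hPt : ∀ᶠ i in U, MvPolynomial.aeval (Sum.elim (fun _ => t i) x) (P i) = 0) :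
    IsAlgebraic L (cl U t) := by
  classical
  have hc : ∀ j : ℕ, cl U (fun i => (spec x (P i)).coeff j) ∈ L := by
    intro j
    have h1 : (fun i => (spec x (P i)).coeff j) = ∑ m ∈ Pool.Agent.H596.Q.box (Unit ⊕ σ) d,
        if m (Sum.inl ()) = j then (fun i => (((P i).coeff m : ℤ) : ℂ)) *
          ∏ l, (fun _ : ι => x l) ^ m (Sum.inr l) else 0 := by
      funext i
      rw [spec_coeff x (P i) d (hP i) j, Finset.sum_apply]
      refine Finset.sum_congr rfl fun m _ => ?_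
      split_ifs with h <;> simp
    rw [h1, map_sum]
    refine L.sum_mem fun m _ => ?_
    split_ifs with h
    · rw [map_mul, map_prod]
      refine L.mul_mem (hLZ _ (coeff_bd P C hPC m)) (L.prod_mem fun l _ => ?_)
      rw [map_pow]
      exact pow_mem (hLx l) _
    · rw [map_zero]
      exact L.zero_mem
  let f : Polynomial L := ∑ j ∈ Finset.range (d + 1), Polynomial.C ⟨_, hc j⟩ * Polynomial.X ^ j
  have hfc : ∀ j ≤ d, f.coeff j = ⟨_, hc j⟩ := by
    intro j hj
    simp only [f, Polynomial.finsetSum_coeff, Polynomial.coeff_C_mul, Polynomial.coeff_X_pow]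
    rw [Finset.sum_eq_single j]
    · simp
    · intro b _ hb
      rw [if_neg (Ne.symm hb), mul_zero]
    · intro hj'
      exact absurd (Finset.mem_range.2 (by omega)) hj'
  refine ⟨f, ?_, ?_⟩
  · intro hf
    have h3 : ∀ᶠ i in U, ∀ j ∈ Finset.range (d + 1), (spec x (P i)).coeff j = 0 := by
      refine (Filter.eventually_all_finset _).2 fun j hj => ?_
      have h4 := hfc j (by have := Finset.mem_range.1 hj; omega)
      rw [hf, Polynomial.coeff_zero] at h4
      have h5 : cl U (fun i => (spec x (P i)).coeff j) = 0 := (congrArg Subtype.val h4).symm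
      rw [← map_zero (cl U)] at h5
      exact cl_eq.1 h5
    obtain ⟨i, h4, h5⟩ := (h3.and hP0).exists
    apply h5
    ext j
    by_cases hj : j ≤ d
    · exact h4 j (Finset.mem_range.2 (by omega))
    · rw [Polynomial.coeff_zero]
      exact Polynomial.coeff_eq_zero_of_natDegree_lt
        ((spec_natDegree x (P i) d (hP i)).trans_lt (by omega))
  · have h3 : Polynomial.aeval (cl U t) f =
        cl U (∑ j ∈ Finset.range (d + 1), (fun i => (spec x (P i)).coeff j) * t ^ j) := by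
      rw [map_sum, map_sum]
      refine Finset.sum_congr rfl fun j _ => ?_
      rw [map_mul, map_mul, map_pow, map_pow, Polynomial.aeval_X, Polynomial.aeval_C]
      rfl
    rw [h3, ← map_zero (cl U)]
    refine cl_eq.2 ?_
    filter_upwards [hPt] with i hi
    rw [← eval_spec, Polynomial.eval_eq_sum_range' (n := d + 1)
      ((spec_natDegree x (P i) d (hP i)).trans_lt (by omega))] at hi
    simpa using hi

/-- Separation of the numbers algebraic over a tuple with a measure. -/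
theorem separation {σ : Type} [Fintype σ] {x : σ → ℂ} (hx : Meas x) (d : ℕ) :
    ∃ k : ℕ, ∀ H : ℝ, 2 ≤ H → ∀ t₁ t₂ : ℂ, ∀ P₁ P₂ : MvPolynomial (Unit ⊕ σ) ℤ,
      P₁.totalDegree ≤ d → P₂.totalDegree ≤ d →
      (∀ m, |((P₁.coeff m : ℤ) : ℝ)| ≤ H) → (∀ m, |((P₂.coeff m : ℤ) : ℝ)| ≤ H) →
      spec x P₁ ≠ 0 → spec x P₂ ≠ 0 →
      MvPolynomial.aeval (Sum.elim (fun _ => t₁) x) P₁ = 0 →
      MvPolynomial.aeval (Sum.elim (fun _ => t₂) x) P₂ = 0 →
      ‖t₁ - t₂‖ * H ^ k ≤ 1 → t₁ = t₂ := by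
  classical
  by_contra hcon
  push Not at hcon
  choose h h2 t₁ t₂ P₁ P₂ hd₁ hd₂ hH₁ hH₂ h₁ h₂ ht₁ ht₂ hs hne using hcon
  let U : Ultrafilter ℕ := hyperfilter ℕ
  obtain ⟨L, hLx, hLZ, hL⟩ := base (U := U) h2 hx
  have a₁ : IsAlgebraic L (cl U t₁) := isAlgebraic_root (h := h) hLx hLZ t₁ d P₁ hd₁ 1
    (Eventually.of_forall fun n m => by rw [pow_one]; exact hH₁ n m)
    (Eventually.of_forall h₁) (Eventually.of_forall ht₁)
  have a₂ : IsAlgebraic L (cl U t₂) := isAlgebraic_root (h := h) hLx hLZ t₂ d P₂ hd₂ 1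
    (Eventually.of_forall fun n m => by rw [pow_one]; exact hH₂ n m)
    (Eventually.of_forall h₂) (Eventually.of_forall ht₂)
  obtain ⟨L', -, hm, hL'⟩ := ext_alg h2 hL (a₁.sub a₂)
  have hsm : Sm h (cl U t₁ - cl U t₂) := by
    rw [← map_sub, sm_cl]
    intro C
    have hge : ∀ᶠ n : ℕ in U, C ≤ n := by
      have : ∀ᶠ n : ℕ in cofinite, C ≤ n := by
        rw [Nat.cofinite_eq_atTop]
        exact eventually_ge_atTop C
      exact this.filter_mono (by exact Filter.hyperfilter_le_cofinite)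
    filter_upwards [hge] with n hn
    refine le_trans ?_ (hs n)
    have h1 : (1 : ℝ) ≤ h n := by linarith [h2 n]
    exact mul_le_mul_of_nonneg_left (pow_le_pow_right₀ h1 hn) (norm_nonneg _)
  have h0 := hsm.eq_zero_of_mem h2 hL' hm
  rw [sub_eq_zero] at h0
  obtain ⟨n, hn⟩ := (cl_eq.1 h0).exists
  exact hne n hn

end H596.U
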