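import Pool.Agent.H596.U.Win
import Pool.Graph.R_seed8.H340R2.LW

/-!
# Algebraic numbers of bounded degree and height in the ultrapower
-/

open Filter Polynomial

namespace H596.U

/-- the algebraic numbers of degree at most `D` and height at most `H` -/
def AlgH (D : ℕ) (H : ℝ) : Set ℂ :=
  {ρ | ∃ R : ℤ[X], R ≠ 0 ∧ R.natDegree ≤ D ∧ (∀ j, |((R.coeff j : ℤ) : ℝ)| ≤ H) ∧ aeval ρ R = 0}

variable {ι : Type} {U : Ultrafilter ι} {h : ι → ℝ}

theorem isAlgebraic_of_algH {L : Subfield (F U)}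
    (hLZ : ∀ n : ι → ℤ, Bd h (cl U fun i => (n i : ℂ)) → cl U (fun i => (n i : ℂ)) ∈ L)
    (D C : ℕ) (ρ : ι → ℂ) (hρ : ∀ᶠ i in U, ρ i ∈ AlgH D (h i ^ C)) :
    IsAlgebraic L (cl U ρ) := by
  classical
  have hex : ∀ i, ∃ R : ℤ[X], R.natDegree ≤ D ∧ (ρ i ∈ AlgH D (h i ^ C) → R ≠ 0 ∧
      (∀ j, |((R.coeff j : ℤ) : ℝ)| ≤ h i ^ C) ∧ aeval (ρ i) R = 0) := by
    intro i
    by_cases hi : ρ i ∈ AlgH D (h i ^ C)
    · obtain ⟨R, h1, h2, h3, h4⟩ := hi
      exact ⟨R, h2, fun _ => ⟨h1, h3, h4⟩⟩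
    · exact ⟨0, by simp, fun h => absurd h hi⟩
  choose R hRd hR using hex
  have hc : ∀ j : ℕ, cl U (fun i => (((R i).coeff j : ℤ) : ℂ)) ∈ L := by
    intro j
    refine hLZ _ (bd_cl.2 ⟨C, ?_⟩)
    filter_upwards [hρ] with i hi
    rw [Complex.norm_intCast]
    exact (hR i hi).2.1 j
  let f : Polynomial L := ∑ j ∈ Finset.range (D + 1), Polynomial.C ⟨_, hc j⟩ * Polynomial.X ^ j
  have hfc : ∀ j ≤ D, f.coeff j = ⟨_, hc j⟩ := by
    intro j hj
    simp only [f, Polynomial.finsetSum_coeff, Polynomial.coeff_C_mul, Polynomial.coeff_X_pow]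
    rw [Finset.sum_eq_single j]
    · simp
    · intro b _ hb
      rw [if_neg (Ne.symm hb), mul_zero]
    · intro hj'
      exact absurd (Finset.mem_range.2 (by omega)) hj'
  refine ⟨f, ?_, ?_⟩
  · intro hf
    have h3 : ∀ᶠ i in U, ∀ j ∈ Finset.range (D + 1), (R i).coeff j = 0 := by
      refine (Filter.eventually_all_finset _).2 fun j hj => ?_
      have h4 := hfc j (by have := Finset.mem_range.1 hj; omega)
      rw [hf, Polynomial.coeff_zero] at h4
      have h5 : cl U (fun i => (((R i).coeff j : ℤ) : ℂ)) = 0 := (congrArg Subtype.val h4).symm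
      rw [← map_zero (cl U)] at h5
      filter_upwards [cl_eq.1 h5] with i hi
      have hi' : (((R i).coeff j : ℤ) : ℂ) = 0 := hi
      exact_mod_cast hi'
    obtain ⟨i, h4, h5⟩ := (h3.and hρ).exists
    apply (hR i h5).1
    ext j
    by_cases hj : j ≤ D
    · exact h4 j (Finset.mem_range.2 (by omega))
    · rw [Polynomial.coeff_zero]
      exact Polynomial.coeff_eq_zero_of_natDegree_lt ((hRd i).trans_lt (by omega))
  · have h3 : Polynomial.aeval (cl U ρ) f =
        cl U (∑ j ∈ Finset.range (D + 1), (fun i => (((R i).coeff j : ℤ) : ℂ)) * ρ ^ j) := by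
      rw [map_sum, map_sum]
      refine Finset.sum_congr rfl fun j _ => ?_
      rw [map_mul, map_mul, map_pow, map_pow, Polynomial.aeval_X, Polynomial.aeval_C]
      rfl
    rw [h3, ← map_zero (cl U)]
    refine cl_eq.2 ?_
    filter_upwards [hρ] with i hi
    have h4 := (hR i hi).2.2
    rw [Polynomial.aeval_eq_sum_range' (n := D + 1) ((hRd i).trans_lt (by omega))] at h4
    simpa [Finset.sum_apply] using h4

/-- The base field: it contains the given tuple, all algebraic numbers of bounded degree and height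
(they may vary), and its elements are polynomially bounded. -/
theorem base_alg (h2 : ∀ i, 2 ≤ h i) {σ : Type} {x : σ → ℂ} (hx : Meas x) :
    ∃ L : Subfield (F U), (∀ j, cl U (fun _ => x j) ∈ L) ∧
      (∀ (D C : ℕ) (ρ : ι → ℂ), (∀ᶠ i in U, ρ i ∈ AlgH D (h i ^ C)) → cl U ρ ∈ L) ∧
      (∀ y, IsAlgebraic L y → y ∈ L) ∧ ∀ z ∈ L, Bd h z := by
  obtain ⟨L, h1, h3, h4⟩ := base (U := U) h2 hx
  refine ⟨(algebraicClosure L (F U)).toSubfield, fun j => ?_, fun D C ρ hρ => ?_, fun y hy => ?_,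
    fun z hz => ?_⟩
  · exact (algebraicClosure L (F U)).algebraMap_mem ⟨_, h1 j⟩
  · exact mem_algebraicClosure_iff.2 (isAlgebraic_of_algH h3 D C ρ hρ)
  · refine mem_algebraicClosure_iff.2 ?_
    have h5 : IsAlgebraic (algebraicClosure L (F U)) y := hy
    exact h5.restrictScalars L
  · exact bd_of_algebraic h2 h4 (mem_algebraicClosure_iff.1 hz)

theorem algH_one_mem {D : ℕ} {H : ℝ} {ρ : ℂ} (hρ : ρ ∈ AlgH D H) : IsAlgebraic ℚ ρ := by
  obtain ⟨R, h1, -, -, h4⟩ := hρ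
  have : IsAlgebraic ℤ ρ := ⟨R, h1, h4⟩
  exact this.extendScalars (algebraMap ℤ ℚ).injective_int

theorem eventually_ge (C : ℕ) : ∀ᶠ n : ℕ in (hyperfilter ℕ : Ultrafilter ℕ), C ≤ n := by
  have : ∀ᶠ n : ℕ in cofinite, C ≤ n := by
    rw [Nat.cofinite_eq_atTop]
    exact eventually_ge_atTop C
  exact this.filter_mono (by exact Filter.hyperfilter_le_cofinite)

/-- The classes of sequences which become small. -/
theorem sm_of_seq {h : ℕ → ℝ} (h2 : ∀ i, 2 ≤ h i) (f : ℕ → ℂ) (hf : ∀ n, ‖f n‖ ≤ 1 / h n ^ n) :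
    Sm h (cl (hyperfilter ℕ : Ultrafilter ℕ) f) := by
  rw [sm_cl]
  intro C
  filter_upwards [eventually_ge C] with n hn
  have h1 : (1 : ℝ) ≤ h n := by linarith [h2 n]
  calc ‖f n‖ * h n ^ C ≤ ‖f n‖ * h n ^ n :=
        mul_le_mul_of_nonneg_left (pow_le_pow_right₀ h1 hn) (norm_nonneg _)
    _ ≤ 1 / h n ^ n * h n ^ n := mul_le_mul_of_nonneg_right (hf n) (by positivity)
    _ = 1 := by field_simp

end H596.U
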