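import Pool.Agent.H596.U.Rank

/-!
# Polynomial relations between several numbers and families of exponentials
-/

open Filter

namespace H596.U

open Pool.Agent.H596.Q in
/-- The theorem of Lindemann and Weierstrass. -/
theorem algInd_exp {σ : Type} [Fintype σ] (α : σ → ℂ) (hα : ∀ i, IsAlgebraic ℚ (α i))
    (hli : LinearIndependent ℚ α) : AlgebraicIndependent ℚ fun i => Complex.exp (α i) := by
  classical
  have hZQ : Algebra.IsAlgebraic ℤ ℚ := IsLocalization.isAlgebraic (R := ℤ) (S := ℚ) (nonZeroDivisors ℤ)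
  suffices H : AlgebraicIndependent ℤ fun i => Complex.exp (α i) from H.extendScalars ℚ
  obtain ⟨K, _, _, _, v, a, ha⟩ := exists_field α hα
  have ha' : LinearIndependent ℚ a := by
    have h1 : (v.toRatAlgHom.toLinearMap : K →ₗ[ℚ] ℂ) ∘ a = α := by
      funext i
      exact ha i
    rw [← h1] at hli
    exact LinearIndependent.of_comp _ hli
  rw [algebraicIndependent_iff_injective_aeval, injective_iff_map_eq_zero]
  intro P hP
  by_contra hne
  have h1 : iota a P ≠ 0 := fun h => hne (iota_injective a (wt_injective a ha') (by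
    rw [h, map_zero]))
  obtain ⟨κ, c, hc, hq⟩ := qlw v (iota a P).coeff.support
  have h2 := hq (iota a P) h1 subset_rfl (max 1 (L1 (iota a P))) (le_max_left _ _)
    (le_max_right _ _)
  have h3 : E v (iota a P) = 0 := by
    rw [E_iota]
    simp only [ha]
    exact hP
  rw [h3, norm_zero, mul_zero] at h2
  linarith

/-- the value of a polynomial whose coefficients are polynomials -/
noncomputable def evalP {σ τ : Type} (t : τ → ℂ) (y : σ → ℂ)
    (P : MvPolynomial σ (MvPolynomial τ ℤ)) : ℂ :=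
  MvPolynomial.eval₂ ((MvPolynomial.aeval t : MvPolynomial τ ℤ →ₐ[ℤ] ℂ) : MvPolynomial τ ℤ →+* ℂ) y P

theorem evalP_box {σ τ : Type} [Fintype σ] (t : τ → ℂ) (y : σ → ℂ) (d : ℕ)
    (P : MvPolynomial σ (MvPolynomial τ ℤ)) (hP : P.totalDegree ≤ d) :
    evalP t y P = ∑ m ∈ Pool.Agent.H596.Q.box σ d,
      MvPolynomial.aeval t (P.coeff m) * ∏ i, y i ^ m i := by
  classical
  rw [evalP, MvPolynomial.eval₂_eq']
  refine Finset.sum_subset (fun m hm => ?_) fun m _ hm => ?_
  · refine Pool.Agent.H596.Q.mem_box d m fun i => ?_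
    have h1 := MvPolynomial.le_totalDegree hm
    have h3 : m i ≤ m.sum fun _ e => e := by
      rw [Finsupp.sum_fintype _ _ fun _ => rfl]
      exact Finset.single_le_sum (f := fun j => m j) (fun _ _ => Nat.zero_le _) (Finset.mem_univ i)
    omega
  · rw [MvPolynomial.notMem_support_iff.1 hm]
    simp

theorem coeff_zero_of_not_box {σ τ : Type} [Fintype σ] (d : ℕ)
    (P : MvPolynomial σ (MvPolynomial τ ℤ)) (hP : P.totalDegree ≤ d) (m : σ →₀ ℕ)
    (hm : m ∉ Pool.Agent.H596.Q.box σ d) : P.coeff m = 0 := by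
  classical
  rw [← MvPolynomial.notMem_support_iff]
  intro hms
  refine hm (Pool.Agent.H596.Q.mem_box d m fun i => ?_)
  have h1 := MvPolynomial.le_totalDegree hms
  have h3 : m i ≤ m.sum fun _ e => e := by
    rw [Finsupp.sum_fintype _ _ fun _ => rfl]
    exact Finset.single_le_sum (f := fun j => m j) (fun _ _ => Nat.zero_le _) (Finset.mem_univ i)
  omega

/-- A family with a nontrivial relation over `ℚ(t)` has a member which is algebraic over the others
and `t`. -/
theorem exists_algebraic {σ τ : Type} [Fintype σ] (t : τ → ℂ) (y : σ → ℂ)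
    (P : MvPolynomial σ (MvPolynomial τ ℤ)) (hP : evalP t y P = 0)
    (hne : ∃ m, MvPolynomial.aeval t (P.coeff m) ≠ 0) :
    ∃ i, IsAlgebraic (Algebra.adjoin ℚ (Set.range t ∪ y '' {i}ᶜ)) (y i) := by
  classical
  let R := Algebra.adjoin ℚ (Set.range t)
  have hnot : ¬ AlgebraicIndependent R y := by
    intro hind
    let f : MvPolynomial τ ℤ →+* R :=
      ((MvPolynomial.aeval fun j => (⟨t j, Algebra.subset_adjoin ⟨j, rfl⟩⟩ : R) :
        MvPolynomial τ ℤ →ₐ[ℤ] R) : MvPolynomial τ ℤ →+* R)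
    have hf : ∀ p, ((f p : R) : ℂ) = MvPolynomial.aeval t p := by
      intro p
      have : ((algebraMap R ℂ).comp f) =
          ((MvPolynomial.aeval t : MvPolynomial τ ℤ →ₐ[ℤ] ℂ) : MvPolynomial τ ℤ →+* ℂ) := by
        refine MvPolynomial.ringHom_ext (fun r => by simp) fun j => ?_
        rw [RingHom.comp_apply]
        change algebraMap R ℂ (MvPolynomial.aeval _ (MvPolynomial.X j)) =
          MvPolynomial.aeval t (MvPolynomial.X j)
        rw [MvPolynomial.aeval_X, MvPolynomial.aeval_X]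
        rfl
      exact congrArg (fun g : MvPolynomial τ ℤ →+* ℂ => g p) this
    have h1 : MvPolynomial.aeval y (MvPolynomial.map f P) = 0 := by
      rw [MvPolynomial.aeval_def, MvPolynomial.eval₂_map, ← hP, evalP]
      congr 1
      refine RingHom.ext fun p => ?_
      exact hf p
    have h2 := (injective_iff_map_eq_zero _).1
      ((algebraicIndependent_iff_injective_aeval).1 hind) _ h1
    obtain ⟨m, hm⟩ := hne
    apply hm
    rw [← hf]
    have h3 : (MvPolynomial.map f P).coeff m = 0 := by rw [h2, MvPolynomial.coeff_zero]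
    rw [MvPolynomial.coeff_map] at h3
    rw [h3]
    rfl
  have hex : ∃ s : Set σ, ∃ i ∉ s, IsAlgebraic (Algebra.adjoin R (y '' s)) (y i) := by
    by_contra hcon
    push Not at hcon
    apply hnot
    refine algebraicIndependent_of_finite_type' (FaithfulSMul.algebraMap_injective R ℂ)
      fun s _ _ i hi => ?_
    exact hcon s i hi
  obtain ⟨s, i, hi, halg⟩ := hex
  refine ⟨i, ?_⟩
  have h1 : IsAlgebraic (Algebra.adjoin ℚ (Set.range t ∪ y '' s)) (y i) := by
    rw [Algebra.adjoin_union_eq_adjoin_adjoin]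
    exact halg
  have hle : Algebra.adjoin ℚ (Set.range t ∪ y '' s) ≤
      Algebra.adjoin ℚ (Set.range t ∪ y '' {i}ᶜ) := by
    refine Algebra.adjoin_mono (Set.union_subset_union_right _ (Set.image_mono ?_))
    intro j hj
    rw [Set.mem_compl_iff, Set.mem_singleton_iff]
    rintro rfl
    exact hi hj
  let _ : Algebra (Algebra.adjoin ℚ (Set.range t ∪ y '' s))
      (Algebra.adjoin ℚ (Set.range t ∪ y '' {i}ᶜ)) := (Subalgebra.inclusion hle).toAlgebra
  have : IsScalarTower (Algebra.adjoin ℚ (Set.range t ∪ y '' s))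
      (Algebra.adjoin ℚ (Set.range t ∪ y '' {i}ᶜ)) ℂ := .of_algebraMap_eq fun _ => rfl
  exact h1.extendScalars (Subalgebra.inclusion_injective hle)

theorem exact_indep {r : ℕ} {J : Type} [Fintype J] (hJ : r < Fintype.card J) {n : J → ℕ}
    (t : Fin r → ℂ)
    (y : (j : J) → Fin (n j) → ℂ)
    (hy : AlgebraicIndependent ℚ fun p : (j : J) × Fin (n j) => y p.1 p.2)
    (P : (j : J) → MvPolynomial (Fin (n j)) (MvPolynomial (Fin r) ℤ))
    (hP : ∀ j, evalP t (y j) (P j) = 0) : ∃ j, ∀ m, MvPolynomial.aeval t ((P j).coeff m) = 0 := by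
  classical
  by_contra hcon
  push Not at hcon
  choose i hi using fun j => exists_algebraic t (y j) (P j) (hP j) (hcon j)
  let g : Fin r ⊕ {p : (j : J) × Fin (n j) // p.2 ≠ i p.1} → ℂ :=
    Sum.elim t fun p => y p.1.1 p.1.2
  let M := AlgebraicIndependent.matroid ℚ ℂ
  have hcl : Set.range (fun p : (j : J) × Fin (n j) => y p.1 p.2) ⊆
      M.closure (Set.range g) := by
    rintro _ ⟨⟨j, l⟩, rfl⟩
    by_cases hl : l = i j
    · subst hl
      rw [AlgebraicIndependent.matroid_closure_eq, SetLike.mem_coe,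
        Subalgebra.mem_algebraicClosure]
      have hle : Algebra.adjoin ℚ (Set.range t ∪ y j '' {i j}ᶜ) ≤
          Algebra.adjoin ℚ (Set.range g) := by
        refine Algebra.adjoin_mono ?_
        rintro z (⟨a, rfl⟩ | ⟨a, ha, rfl⟩)
        · exact ⟨Sum.inl a, rfl⟩
        · exact ⟨Sum.inr ⟨⟨j, a⟩, ha⟩, rfl⟩
      let _ : Algebra (Algebra.adjoin ℚ (Set.range t ∪ y j '' {i j}ᶜ))
          (Algebra.adjoin ℚ (Set.range g)) := (Subalgebra.inclusion hle).toAlgebra
      have : IsScalarTower (Algebra.adjoin ℚ (Set.range t ∪ y j '' {i j}ᶜ))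
          (Algebra.adjoin ℚ (Set.range g)) ℂ := .of_algebraMap_eq fun _ => rfl
      exact (hi j).extendScalars (Subalgebra.inclusion_injective hle)
    · refine M.mem_closure_of_mem' ?_ (Set.mem_univ _)
      exact ⟨Sum.inr ⟨⟨j, l⟩, hl⟩, rfl⟩
  have hinj : Function.Injective fun p : (j : J) × Fin (n j) => y p.1 p.2 := hy.injective
  have hind : M.Indep (Set.range fun p : (j : J) × Fin (n j) => y p.1 p.2) := by
    have := hy.coe_range
    exact this
  have h1 : (Set.range fun p : (j : J) × Fin (n j) => y p.1 p.2).encard ≤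
      (Set.range g).encard := by
    rw [← hind.eRk_eq_encard]
    calc M.eRk _ ≤ M.eRk (M.closure (Set.range g)) := M.eRk_mono hcl
      _ = M.eRk (Set.range g) := M.eRk_closure_eq _
      _ ≤ _ := M.eRk_le_encard _
  have h2 : (Set.range fun p : (j : J) × Fin (n j) => y p.1 p.2).encard =
      Fintype.card ((j : J) × Fin (n j)) := by
    rw [← Set.image_univ, hinj.encard_image, Set.encard_univ, ENat.card_eq_coe_fintype_card]
  have h3 : (Set.range g).encard ≤
      Fintype.card (Fin r ⊕ {p : (j : J) × Fin (n j) // p.2 ≠ i p.1}) := by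
    rw [← Set.image_univ]
    refine (Set.encard_image_le _ _).trans ?_
    rw [Set.encard_univ, ENat.card_eq_coe_fintype_card]
  rw [h2] at h1
  have h4 := h1.trans h3
  have h5 : Fintype.card ((j : J) × Fin (n j)) ≤
      Fintype.card (Fin r ⊕ {p : (j : J) × Fin (n j) // p.2 ≠ i p.1}) := by
    exact_mod_cast h4
  have h6 : Fintype.card {p : (j : J) × Fin (n j) // p.2 = i p.1} = Fintype.card J := by
    refine (Fintype.card_congr
      { toFun := fun p => p.1.1
        invFun := fun j => ⟨⟨j, i j⟩, rfl⟩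
        left_inv := ?_
        right_inv := fun j => rfl })
    rintro ⟨⟨j, l⟩, hl⟩
    dsimp only at hl
    subst hl
    rfl
  have h7 := Fintype.card_subtype_compl
    (fun p : (j : J) × Fin (n j) => p.2 = i p.1)
  have h8 := Fintype.card_subtype_le (fun p : (j : J) × Fin (n j) => p.2 = i p.1)
  rw [Fintype.card_sum, Fintype.card_fin] at h5
  change Fintype.card {p : (j : J) × Fin (n j) // ¬ p.2 = i p.1} = _ at h7
  rw [h7, h6] at h5
  rw [h6] at h8
  omega

theorem exists_eventually {U : Ultrafilter ℕ} {κ : Type} [Finite κ] (c : ℕ → κ) :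
    ∃ j, ∀ᶠ n in U, c n = j := by
  classical
  by_contra hcon
  push Not at hcon
  obtain ⟨n, hn⟩ := (Filter.eventually_all.2 hcon).exists
  exact hn (c n) rfl

/-- More than `r` independent families of exponentials cannot all be nearly dependent over the
field generated by `r` numbers. -/
theorem dep_rank {r : ℕ} {J : Type} [Fintype J] (hJ : r < Fintype.card J) {n : J → ℕ}
    (α : (j : J) → Fin (n j) → ℂ)
    (hα : ∀ j i, IsAlgebraic ℚ (α j i))
    (hli : LinearIndependent ℚ fun p : (j : J) × Fin (n j) => α p.1 p.2) (d B k₀ : ℕ) :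
    ∃ k : ℕ, ∀ H : ℝ, 2 ≤ H → ∀ t : Fin r → ℂ, (∀ i, ‖t i‖ ≤ H ^ B) →
      ∀ P : (j : J) → MvPolynomial (Fin (n j)) (MvPolynomial (Fin r) ℤ),
        (∀ j, (P j).totalDegree ≤ d) → (∀ j m, ((P j).coeff m).totalDegree ≤ d) →
        (∀ j m l, |((((P j).coeff m).coeff l : ℤ) : ℝ)| ≤ H) →
        (∀ j, ‖evalP t (fun i => Complex.exp (α j i)) (P j)‖ ≤ 1 / H ^ k) →
        ∃ j, ∀ m, ‖MvPolynomial.aeval t ((P j).coeff m)‖ ≤ 1 / H ^ k₀ := by
  classical
  by_contra hcon
  push Not at hcon
  choose h h2 t ht P hPd hPc hPH hs hno using hcon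
  have hm := meas_exp (fun p : (j : J) × Fin (n j) => α p.1 p.2) fun p => hα p.1 p.2
  obtain ⟨L, hx, hZ, hL⟩ := base (U := hyperfilter ℕ) h2 hm
  have htb : ∀ i, Bd h (cl (hyperfilter ℕ : Ultrafilter ℕ) fun k => t k i) := fun i =>
    bd_cl.2 ⟨B, Eventually.of_forall fun k => ht k i⟩
  obtain ⟨s, L', hLL, hsL, hL', hss⟩ := ext_many h2 hL _ htb
  choose t' ht' using fun i => cl_surj (s i)
  have hcH : ∀ j m, ∀ᶠ k in (hyperfilter ℕ : Ultrafilter ℕ), ∀ l,
      |((((P k j).coeff m).coeff l : ℤ) : ℝ)| ≤ h k ^ 1 := fun j m =>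
    Eventually.of_forall fun k l => by rw [pow_one]; exact hPH k j m l
  have hdiff : ∀ j m, Sm h (cl (hyperfilter ℕ : Ultrafilter ℕ)
      (fun k => MvPolynomial.aeval (fun i => t' i k) ((P k j).coeff m)) -
      cl _ (fun k => MvPolynomial.aeval (fun i => t k i) ((P k j).coeff m))) := fun j m =>
    sm_aeval_sub h2 t' (fun i k => t k i) (fun i => by rw [ht']; exact hL' _ (hsL i)) htb
      (fun i => by rw [ht']; exact hss i) d (fun k => (P k j).coeff m) (fun k => hPc k j m) 1
      (hcH j m)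
  have heq : ∀ (j : J) (z : Fin r → ℕ → ℂ),
      cl (hyperfilter ℕ : Ultrafilter ℕ)
        (fun k => evalP (fun i => z i k) (fun i => Complex.exp (α j i)) (P k j)) =
        ∑ m ∈ Pool.Agent.H596.Q.box (Fin (n j)) d,
          cl _ (fun k => MvPolynomial.aeval (fun i => z i k) ((P k j).coeff m)) *
          ∏ i, cl _ (fun _ => Complex.exp (α j i)) ^ m i := by
    intro j z
    have h3 : (fun k => evalP (fun i => z i k) (fun i => Complex.exp (α j i)) (P k j)) =
        ∑ m ∈ Pool.Agent.H596.Q.box (Fin (n j)) d,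
          (fun k => MvPolynomial.aeval (fun i => z i k) ((P k j).coeff m)) *
          ∏ i, (fun _ => Complex.exp (α j i)) ^ m i := by
      funext k
      rw [evalP_box _ _ d _ (hPd k j), Finset.sum_apply]
      refine Finset.sum_congr rfl fun m _ => ?_
      simp
    rw [h3]
    simp only [map_sum, map_mul, map_prod, map_pow]
  have hexact : ∀ j, ∀ᶠ k in (hyperfilter ℕ : Ultrafilter ℕ),
      evalP (fun i => t' i k) (fun i => Complex.exp (α j i)) (P k j) = 0 := by
    intro j
    have h3 := sm_of_seq h2 _ (fun k => hs k j)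
    rw [heq j (fun i k => t k i)] at h3
    have h4 : cl (hyperfilter ℕ : Ultrafilter ℕ)
        (fun k => evalP (fun i => t' i k) (fun i => Complex.exp (α j i)) (P k j)) ∈ L' := by
      rw [heq j t']
      refine L'.sum_mem fun m _ => L'.mul_mem ?_ (L'.prod_mem fun i _ =>
        pow_mem (hLL (hx ⟨j, i⟩)) _)
      exact aeval_mem (L := L') (fun n hn => hLL (hZ n hn)) t' (fun i => by
        rw [ht']; exact hsL i) d (fun k => (P k j).coeff m) (fun k => hPc k j m) 1 (hcH j m)
    have h5 : Sm h (cl (hyperfilter ℕ : Ultrafilter ℕ)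
        (fun k => evalP (fun i => t' i k) (fun i => Complex.exp (α j i)) (P k j))) := by
      rw [heq j t']
      have h6 : Sm h (∑ m ∈ Pool.Agent.H596.Q.box (Fin (n j)) d,
          (cl (hyperfilter ℕ : Ultrafilter ℕ)
            (fun k => MvPolynomial.aeval (fun i => t' i k) ((P k j).coeff m)) -
            cl _ (fun k => MvPolynomial.aeval (fun i => t k i) ((P k j).coeff m))) *
            ∏ i, cl _ (fun _ => Complex.exp (α j i)) ^ m i) := by
        refine Sm.sum h2 _ _ fun m _ => (hdiff j m).mul h2 ?_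
        exact prod_mem (S := Av (hyperfilter ℕ) h h2) fun i _ =>
          pow_mem (S := Av (hyperfilter ℕ) h h2) (const_bd h2 _) _
      have h7 := h6.add h2 h3
      refine cast (congrArg (Sm h) ?_) h7
      simp only [sub_mul, Finset.sum_sub_distrib]
      ring
    have h8 := h5.eq_zero_of_mem h2 hL' h4
    rw [← map_zero (cl (hyperfilter ℕ : Ultrafilter ℕ))] at h8
    exact cl_eq.1 h8
  have hy := algInd_exp (fun p : (j : J) × Fin (n j) => α p.1 p.2)
    (fun p => hα p.1 p.2) hli
  have hne : Nonempty J := Fintype.card_pos_iff.1 (by omega)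
  have hex : ∀ k, ∃ j, (∀ j, evalP (fun i => t' i k) (fun i => Complex.exp (α j i)) (P k j) = 0) →
      ∀ m, MvPolynomial.aeval (fun i => t' i k) ((P k j).coeff m) = 0 := by
    intro k
    by_cases hk : ∀ j, evalP (fun i => t' i k) (fun i => Complex.exp (α j i)) (P k j) = 0
    · obtain ⟨j, hj⟩ := exact_indep hJ (fun i => t' i k) (fun j i => Complex.exp (α j i)) hy (P k) hk
      exact ⟨j, fun _ => hj⟩
    · exact ⟨Classical.arbitrary J, fun h => absurd h hk⟩
  choose c hc using hex
  obtain ⟨j, hj⟩ := exists_eventually (U := hyperfilter ℕ) c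
  have hsmall : ∀ m ∈ Pool.Agent.H596.Q.box (Fin (n j)) d,
      ∀ᶠ k in (hyperfilter ℕ : Ultrafilter ℕ),
      ‖MvPolynomial.aeval (t k) ((P k j).coeff m)‖ * h k ^ k₀ ≤ 1 := by
    intro m _
    have h3 : cl (hyperfilter ℕ : Ultrafilter ℕ)
        (fun k => MvPolynomial.aeval (fun i => t' i k) ((P k j).coeff m)) = 0 := by
      rw [← map_zero (cl (hyperfilter ℕ : Ultrafilter ℕ))]
      refine cl_eq.2 ?_
      filter_upwards [hj, Filter.eventually_all.2 hexact] with k hk1 hk2
      have h9 := hc k hk2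
      rw [hk1] at h9
      exact h9 m
    have h4 := hdiff j m
    rw [h3, zero_sub] at h4
    have h5 := h4.neg
    rw [neg_neg, sm_cl] at h5
    exact h5 k₀
  obtain ⟨k, hk⟩ := ((Filter.eventually_all_finset _).2 hsmall).exists
  obtain ⟨m, hm'⟩ := hno k j
  by_cases hmb : m ∈ Pool.Agent.H596.Q.box (Fin (n j)) d
  · have h3 := hk m hmb
    have h4 : (0 : ℝ) < h k ^ k₀ := by have := h2 k; positivity
    rw [div_lt_iff₀ h4] at hm'
    linarith
  · rw [coeff_zero_of_not_box d (P k j) (hPd k j) m hmb, map_zero, norm_zero] at hm'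
    have h4 : (0 : ℝ) < 1 / h k ^ k₀ := by have := h2 k; positivity
    linarith

end H596.U
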