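import Pool.Agent.H596.U.Germ

/-!
# Extension of subfields of the ring of the polynomially bounded elements
-/

open Filter Polynomial

namespace H596.U

variable {ι : Type} {U : Ultrafilter ι} {h : ι → ℝ}

theorem bd_of_algebraic (h2 : ∀ i, 2 ≤ h i) {L : Subfield (F U)} (hL : ∀ y ∈ L, Bd h y)
    {y : F U} (hy : IsAlgebraic L y) : Bd h y := by
  let ρ : L →+* Av U h h2 :=
    { toFun := fun a => ⟨a.1, hL a.1 a.2⟩
      map_one' := rfl
      map_mul' := fun a b => rfl
      map_zero' := rfl
      map_add' := fun a b => rfl }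
  obtain ⟨p, hp, he⟩ := hy.isIntegral
  have h1 : IsIntegral (Av U h h2) y := by
    refine ⟨p.map ρ, hp.map ρ, ?_⟩
    rw [Polynomial.eval₂_map]
    exact he
  obtain ⟨z, hz⟩ := IsIntegrallyClosed.isIntegral_iff.1 h1
  rw [← hz]
  exact z.2

theorem Sm.of_multiset (h2 : ∀ i, 2 ≤ h i) (s : Multiset (F U)) (hs : Sm h s.prod) :
    ∃ a ∈ s, Sm h a := by
  induction s using Multiset.induction_on with
  | empty => exact absurd (by simpa using hs) (not_sm_one h2)
  | cons a s ih =>
    rw [Multiset.prod_cons] at hs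
    rcases hs.prime h2 with h1 | h1
    · exact ⟨a, Multiset.mem_cons_self _ _, h1⟩
    · obtain ⟨b, hb, h3⟩ := ih h1
      exact ⟨b, Multiset.mem_cons_of_mem hb, h3⟩

/-- A subfield generated over `L` by an element algebraic over `L`. -/
theorem ext_alg (h2 : ∀ i, 2 ≤ h i) {L : Subfield (F U)} (hL : ∀ y ∈ L, Bd h y)
    {y : F U} (hy : IsAlgebraic L y) :
    ∃ L' : Subfield (F U), L ≤ L' ∧ y ∈ L' ∧ ∀ z ∈ L', Bd h z := by
  refine ⟨(IntermediateField.adjoin L {y}).toSubfield, ?_, ?_, ?_⟩
  · intro z hz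
    exact (IntermediateField.adjoin L {y}).algebraMap_mem ⟨z, hz⟩
  · exact IntermediateField.mem_adjoin_simple_self L y
  · intro z hz
    have h1 : Algebra.IsAlgebraic L (IntermediateField.adjoin L {y}) :=
      IntermediateField.isAlgebraic_adjoin (by
        intro x hx
        rw [Set.mem_singleton_iff] at hx
        rw [hx]
        exact hy.isIntegral)
    refine bd_of_algebraic h2 hL ?_
    have h3 := h1.isAlgebraic ⟨z, hz⟩
    exact (isAlgebraic_algebraMap_iff
      (FaithfulSMul.algebraMap_injective (IntermediateField.adjoin L {y}) (F U))).2 h3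

theorem aeval_bd (h2 : ∀ i, 2 ≤ h i) {L : Subfield (F U)} (hL : ∀ y ∈ L, Bd h y)
    {x : F U} (hx : Bd h x) (f : L[X]) : Bd h (aeval x f) := by
  rw [Polynomial.aeval_eq_sum_range]
  have : ∀ s : Finset ℕ, Bd h (∑ i ∈ s, f.coeff i • x ^ i) := by
    intro s
    refine (Av U h h2).sum_mem fun i _ => ?_
    rw [Algebra.smul_def]
    exact (Av U h h2).mul_mem _ _ (hL _ (f.coeff i).2) (pow_mem (S := Av U h h2) hx i)
  exact this _

/-- Every bounded element is congruent to an element which generates a bounded field over `L`. -/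
theorem ext_one (h2 : ∀ i, 2 ≤ h i) {L : Subfield (F U)} (hL : ∀ y ∈ L, Bd h y)
    {x : F U} (hx : Bd h x) :
    ∃ (x' : F U) (L' : Subfield (F U)), L ≤ L' ∧ x' ∈ L' ∧ (∀ z ∈ L', Bd h z) ∧
      Sm h (x' - x) := by
  by_cases H : ∃ f : L[X], f ≠ 0 ∧ Sm h (aeval x f)
  · obtain ⟨f, hf, hs⟩ := H
    set g := f.map (algebraMap L (F U)) with hg
    have hinj : Function.Injective (algebraMap L (F U)) := (algebraMap L (F U)).injective
    have hg0 : g ≠ 0 := (Polynomial.map_ne_zero_iff hinj).2 hf
    have hspl : g.Splits := IsAlgClosed.splits g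
    have h3 : aeval x f = g.leadingCoeff * (g.roots.map fun a => x - a).prod := by
      have h4 : aeval x f = g.eval x := by rw [hg, Polynomial.eval_map_algebraMap]
      rw [h4]
      conv_lhs => rw [hspl.eq_prod_roots]
      rw [Polynomial.eval_mul, Polynomial.eval_C, Polynomial.eval_multiset_prod, Multiset.map_map]
      congr 3
      funext a
      simp
    rw [h3] at hs
    have hlead : ¬ Sm h g.leadingCoeff := by
      intro hcon
      have hmem : g.leadingCoeff ∈ L := by
        rw [hg, Polynomial.leadingCoeff_map]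
        exact (f.leadingCoeff).2
      exact Polynomial.leadingCoeff_ne_zero.2 hg0 (hcon.eq_zero_of_mem h2 hL hmem)
    rcases hs.prime h2 with h4 | h4
    · exact absurd h4 hlead
    · obtain ⟨b, hb, hsb⟩ := Sm.of_multiset h2 _ h4
      obtain ⟨a, ha, rfl⟩ := Multiset.mem_map.1 hb
      have halg : IsAlgebraic L a := by
        refine ⟨f, hf, ?_⟩
        rw [← Polynomial.eval_map_algebraMap]
        exact (Polynomial.mem_roots hg0).1 ha
      obtain ⟨L', h5, h6, h7⟩ := ext_alg h2 hL halg
      refine ⟨a, L', h5, h6, h7, ?_⟩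
      rw [← neg_sub]
      exact hsb.neg
  · push Not at H
    refine ⟨x, (IntermediateField.adjoin L {x}).toSubfield, ?_,
      IntermediateField.mem_adjoin_simple_self L x, ?_, by rw [sub_self]; exact Sm.zero⟩
    · intro z hz
      exact (IntermediateField.adjoin L {x}).algebraMap_mem ⟨z, hz⟩
    · intro z hz
      obtain ⟨r, s, rfl⟩ := (IntermediateField.mem_adjoin_simple_iff L z).1 hz
      rw [div_eq_mul_inv]
      refine (Av U h h2).mul_mem _ _ (aeval_bd h2 hL hx r) ?_
      by_cases hs : s = 0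
      · rw [hs, map_zero, inv_zero]
        exact (Av U h h2).zero_mem
      · exact inv_bd_of_not_sm h2 (H s hs)

theorem ext_many (h2 : ∀ i, 2 ≤ h i) {L : Subfield (F U)} (hL : ∀ y ∈ L, Bd h y)
    {τ : Type*} [Finite τ] (t : τ → F U) (ht : ∀ i, Bd h (t i)) :
    ∃ (t' : τ → F U) (L' : Subfield (F U)), L ≤ L' ∧ (∀ i, t' i ∈ L') ∧ (∀ z ∈ L', Bd h z) ∧
      ∀ i, Sm h (t' i - t i) := by
  classical
  have := Fintype.ofFinite τ
  suffices H : ∀ s : Finset τ, ∃ (t' : τ → F U) (L' : Subfield (F U)), L ≤ L' ∧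
      (∀ i ∈ s, t' i ∈ L') ∧ (∀ z ∈ L', Bd h z) ∧ ∀ i, Sm h (t' i - t i) by
    obtain ⟨t', L', h1, h3, h4, h5⟩ := H Finset.univ
    exact ⟨t', L', h1, fun i => h3 i (Finset.mem_univ i), h4, h5⟩
  intro s
  induction s using Finset.induction_on with
  | empty =>
    exact ⟨t, L, le_rfl, fun i hi => absurd hi (Finset.notMem_empty i), hL, fun i => by
      rw [sub_self]; exact Sm.zero⟩
  | insert a s ha ih =>
    obtain ⟨t', L', h1, h3, h4, h5⟩ := ih
    obtain ⟨x', L'', h6, h7, h8, h9⟩ := ext_one h2 h4 (ht a)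
    refine ⟨Function.update t' a x', L'', h1.trans h6, ?_, h8, ?_⟩
    · intro i hi
      by_cases hia : i = a
      · subst hia; rw [Function.update_self]; exact h7
      · rw [Function.update_of_ne hia]
        exact h6 (h3 i ((Finset.mem_insert.1 hi).resolve_left hia))
    · intro i
      by_cases hia : i = a
      · subst hia; rw [Function.update_self]; exact h9
      · rw [Function.update_of_ne hia]; exact h5 i


end H596.U
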