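import Mathlib

/-!
# The ultrapower of the complex numbers and its polynomially bounded elements

`F U` is the ultrapower of `ℂ` with respect to the ultrafilter `U`; it is an algebraically closed
field. Let `h i ≥ 2`. The elements which are at most `h ^ C` for some `C` form a valuation ring
`Av h`, with maximal ideal the elements `Sm h` which are at most `h ^ (-C)` for all `C`. Subfields
of `Av h` can be extended by arbitrary elements of `Av h` up to elements of `Sm h`.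
-/

open Filter Polynomial

namespace H596.U

/-- The ultrapower of the complex numbers. -/
abbrev F {ι : Type} (U : Ultrafilter ι) : Type := Germ (U : Filter ι) ℂ

variable {ι : Type} {U : Ultrafilter ι}

/-- The class of a sequence. -/
noncomputable def cl (U : Ultrafilter ι) : (ι → ℂ) →+* F U := Germ.coeRingHom (U : Filter ι)

theorem cl_surj (x : F U) : ∃ f, cl U f = x := Quotient.exists_rep x

theorem cl_eq {f g : ι → ℂ} : cl U f = cl U g ↔ ∀ᶠ i in U, f i = g i :=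
  Germ.coe_eq

theorem exists_root (p : (F U)[X]) (hp : p.Monic) (hd : p.natDegree ≠ 0) :
    ∃ z : F U, p.eval z = 0 := by
  choose c hc using fun i : ℕ => cl_surj (p.coeff i)
  set n := p.natDegree with hn
  have key : ∀ m : ι, ∃ z : ℂ, (∑ i ∈ Finset.range n, c i m * z ^ i) + z ^ n = 0 := by
    intro m
    let q : ℂ[X] := (∑ i ∈ Finset.range n, C (c i m) * X ^ i) + X ^ n
    have hlt : (∑ i ∈ Finset.range n, C (c i m) * X ^ i : ℂ[X]).degree < n := by
      refine (Polynomial.degree_sum_le _ _).trans_lt ?_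
      rw [Finset.sup_lt_iff (by exact WithBot.bot_lt_coe n)]
      intro i hi
      refine (Polynomial.degree_C_mul_X_pow_le _ _).trans_lt ?_
      exact_mod_cast Finset.mem_range.1 hi
    have hq : q.degree = n := by
      rw [Polynomial.degree_add_eq_right_of_degree_lt (by rwa [Polynomial.degree_X_pow]),
        Polynomial.degree_X_pow]
    obtain ⟨z, hz⟩ := IsAlgClosed.exists_root q (by rw [hq]; exact_mod_cast hd)
    refine ⟨z, ?_⟩
    have := hz
    rw [Polynomial.IsRoot.def] at this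
    simpa [q, Polynomial.eval_finsetSum] using this
  choose z hz using key
  refine ⟨cl U z, ?_⟩
  rw [Polynomial.eval_eq_sum_range, Finset.sum_range_succ, hp.coeff_natDegree, one_mul, ← hn]
  have : cl U ((∑ i ∈ Finset.range n, c i * z ^ i) + z ^ n) = 0 := by
    have h0 : (∑ i ∈ Finset.range n, c i * z ^ i) + z ^ n = (0 : ι → ℂ) := by
      funext m
      simpa using hz m
    rw [h0, map_zero]
  rw [map_add, map_sum, map_pow] at this
  simpa [map_mul, map_pow, hc] using this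

noncomputable instance : IsAlgClosed (F U) :=
  IsAlgClosed.of_exists_root _ fun p hp hi =>
    exists_root p hp (Polynomial.natDegree_pos_iff_degree_pos.2
      (Polynomial.degree_pos_of_irreducible hi)).ne'

/-- Polynomially bounded. -/
def Bd (h : ι → ℝ) (x : F U) : Prop :=
  ∃ f : ι → ℂ, cl U f = x ∧ ∃ C : ℕ, ∀ᶠ i in U, ‖f i‖ ≤ h i ^ C

/-- Polynomially small. -/
def Sm (h : ι → ℝ) (x : F U) : Prop :=
  ∃ f : ι → ℂ, cl U f = x ∧ ∀ C : ℕ, ∀ᶠ i in U, ‖f i‖ * h i ^ C ≤ 1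

variable {h : ι → ℝ}

theorem bd_cl {f : ι → ℂ} : Bd h (cl U f) ↔ ∃ C : ℕ, ∀ᶠ i in U, ‖f i‖ ≤ h i ^ C := by
  constructor
  · rintro ⟨g, hg, C, hC⟩
    refine ⟨C, ?_⟩
    filter_upwards [cl_eq.1 hg, hC] with i h1 h2
    rwa [← h1]
  · rintro ⟨C, hC⟩
    exact ⟨f, rfl, C, hC⟩

theorem sm_cl {f : ι → ℂ} : Sm h (cl U f) ↔ ∀ C : ℕ, ∀ᶠ i in U, ‖f i‖ * h i ^ C ≤ 1 := by
  constructor
  · rintro ⟨g, hg, hC⟩ C
    filter_upwards [cl_eq.1 hg, hC C] with i h1 h2
    rwa [← h1]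
  · intro hC
    exact ⟨f, rfl, hC⟩

theorem Bd.add (h2 : ∀ i, 2 ≤ h i) {x y : F U} (hx : Bd h x) (hy : Bd h y) : Bd h (x + y) := by
  obtain ⟨f, rfl, C, hC⟩ := hx
  obtain ⟨g, rfl, D, hD⟩ := hy
  rw [← map_add, bd_cl]
  refine ⟨C + D + 1, ?_⟩
  filter_upwards [hC, hD] with i h3 h4
  have h1 : (1 : ℝ) ≤ h i := by linarith [h2 i]
  have hCD : h i ^ C ≤ h i ^ (C + D) := pow_le_pow_right₀ h1 (by omega)
  have hDC : h i ^ D ≤ h i ^ (C + D) := pow_le_pow_right₀ h1 (by omega)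
  have h0 : (0 : ℝ) ≤ h i ^ (C + D) := by positivity
  calc ‖(f + g) i‖ ≤ ‖f i‖ + ‖g i‖ := norm_add_le _ _
    _ ≤ h i ^ (C + D) + h i ^ (C + D) := by linarith
    _ ≤ h i ^ (C + D + 1) := by rw [pow_succ]; nlinarith [h2 i]

theorem Bd.mul {x y : F U} (hh : ∀ i, 0 ≤ h i) (hx : Bd h x) (hy : Bd h y) : Bd h (x * y) := by
  obtain ⟨f, rfl, C, hC⟩ := hx
  obtain ⟨g, rfl, D, hD⟩ := hy
  rw [← map_mul, bd_cl]
  refine ⟨C + D, ?_⟩
  filter_upwards [hC, hD] with i h3 h4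
  rw [Pi.mul_apply, norm_mul, pow_add]
  exact mul_le_mul h3 h4 (norm_nonneg _) (pow_nonneg (hh i) _)

/-- The valuation ring of the polynomially bounded elements. -/
noncomputable def Av (U : Ultrafilter ι) (h : ι → ℝ) (h2 : ∀ i, 2 ≤ h i) :
    ValuationSubring (F U) where
  carrier := {x | Bd h x}
  mul_mem' hx hy := Bd.mul (fun i => by linarith [h2 i]) hx hy
  one_mem' := ⟨1, map_one _, 0, Eventually.of_forall fun i => by simp⟩
  add_mem' hx hy := Bd.add h2 hx hy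
  zero_mem' := ⟨0, map_zero _, 0, Eventually.of_forall fun i => by simp⟩
  neg_mem' := by
    rintro x ⟨f, rfl, C, hC⟩
    exact ⟨-f, map_neg _ _, C, by simpa using hC⟩
  mem_or_inv_mem' := by
    intro x
    obtain ⟨f, rfl⟩ := cl_surj x
    by_cases hx : ∀ᶠ i in U, ‖f i‖ ≤ 1
    · exact Or.inl ⟨f, rfl, 0, by simpa using hx⟩
    · right
      rw [Ultrafilter.eventually_not.symm] at hx
      refine ⟨f⁻¹, ?_, 0, ?_⟩
      · exact Germ.coe_inv f
      · filter_upwards [hx] with i hi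
        rw [Pi.inv_apply, norm_inv, pow_zero]
        exact inv_le_one_of_one_le₀ (not_le.1 hi).le

theorem mem_Av {h2 : ∀ i, 2 ≤ h i} {x : F U} : x ∈ Av U h h2 ↔ Bd h x := Iff.rfl

theorem sm_of_inv_not_bd (h2 : ∀ i, 2 ≤ h i) {x : F U} (hx : ¬ Bd h x⁻¹) : Sm h x := by
  obtain ⟨f, rfl⟩ := cl_surj x
  rw [sm_cl]
  intro C
  by_contra hcon
  apply hx
  rw [Ultrafilter.eventually_not.symm] at hcon
  refine ⟨f⁻¹, Germ.coe_inv f, C, ?_⟩
  filter_upwards [hcon] with i hi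
  have h0 : 0 < h i ^ C := by have := h2 i; positivity
  rw [Pi.inv_apply, norm_inv]
  have hf : 0 < ‖f i‖ := by
    rcases (norm_nonneg (f i)).eq_or_lt with h | h
    · rw [← h] at hi; simp at hi
    · exact h
  rw [inv_le_iff_one_le_mul₀ hf]
  linarith [not_le.1 hi, mul_comm ‖f i‖ (h i ^ C)]

theorem Sm.bd {x : F U} (hx : Sm h x) : Bd h x := by
  obtain ⟨f, rfl, hC⟩ := hx
  exact bd_cl.2 ⟨0, by simpa using hC 0⟩

theorem Sm.add (h2 : ∀ i, 2 ≤ h i) {x y : F U} (hx : Sm h x) (hy : Sm h y) : Sm h (x + y) := by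
  obtain ⟨f, rfl, hC⟩ := hx
  obtain ⟨g, rfl, hD⟩ := hy
  rw [← map_add, sm_cl]
  intro C
  filter_upwards [hC (C + 1), hD (C + 1)] with i h3 h4
  have h0 : 0 ≤ h i ^ C := by have := h2 i; positivity
  have h1 : ‖(f + g) i‖ ≤ ‖f i‖ + ‖g i‖ := norm_add_le _ _
  rw [pow_succ] at h3 h4
  have h5 : ‖f i‖ * h i ^ C * 2 ≤ 1 := by
    have : ‖f i‖ * h i ^ C * 2 ≤ ‖f i‖ * h i ^ C * h i := by
      apply mul_le_mul_of_nonneg_left (h2 i) (by positivity)
    linarith
  have h6 : ‖g i‖ * h i ^ C * 2 ≤ 1 := by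
    have : ‖g i‖ * h i ^ C * 2 ≤ ‖g i‖ * h i ^ C * h i := by
      apply mul_le_mul_of_nonneg_left (h2 i) (by positivity)
    linarith
  nlinarith

theorem Sm.mul (h2 : ∀ i, 2 ≤ h i) {x y : F U} (hx : Sm h x) (hy : Bd h y) : Sm h (x * y) := by
  obtain ⟨f, rfl, hC⟩ := hx
  obtain ⟨g, rfl, D, hD⟩ := hy
  rw [← map_mul, sm_cl]
  intro C
  filter_upwards [hC (C + D), hD] with i h3 h4
  have h0 : 0 ≤ h i ^ C := by have := h2 i; positivity
  rw [Pi.mul_apply, norm_mul]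
  calc ‖f i‖ * ‖g i‖ * h i ^ C ≤ ‖f i‖ * h i ^ D * h i ^ C := by gcongr
    _ = ‖f i‖ * h i ^ (C + D) := by ring
    _ ≤ 1 := h3

theorem Sm.zero : Sm h (0 : F U) := ⟨0, map_zero _, fun C => by simp⟩

theorem Sm.neg {x : F U} (hx : Sm h x) : Sm h (-x) := by
  obtain ⟨f, rfl, hC⟩ := hx
  exact ⟨-f, map_neg _ _, fun C => by simpa using hC C⟩

theorem Sm.sub (h2 : ∀ i, 2 ≤ h i) {x y : F U} (hx : Sm h x) (hy : Sm h y) : Sm h (x - y) := by
  rw [sub_eq_add_neg]
  exact hx.add h2 hy.neg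

theorem Sm.sum (h2 : ∀ i, 2 ≤ h i) {α : Type*} (s : Finset α) (f : α → F U)
    (hf : ∀ a ∈ s, Sm h (f a)) : Sm h (∑ a ∈ s, f a) := by
  classical
  induction s using Finset.induction_on with
  | empty => simpa using Sm.zero
  | insert a s ha ih =>
    rw [Finset.sum_insert ha]
    exact (hf _ (Finset.mem_insert_self _ _)).add h2 (ih fun b hb => hf _ (Finset.mem_insert_of_mem hb))

theorem not_sm_one (h2 : ∀ i, 2 ≤ h i) : ¬ Sm h (1 : F U) := by
  intro hs
  have := (sm_cl (U := U) (f := 1)).1 (by rw [map_one]; exact hs) 1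
  obtain ⟨i, hi⟩ := this.exists
  simp at hi
  linarith [h2 i]

theorem inv_bd_of_not_sm (h2 : ∀ i, 2 ≤ h i) {x : F U} (hx : ¬ Sm h x) : Bd h x⁻¹ := by
  by_contra hcon
  exact hx (sm_of_inv_not_bd h2 hcon)

theorem Sm.prime (h2 : ∀ i, 2 ≤ h i) {x y : F U} (hxy : Sm h (x * y)) :
    Sm h x ∨ Sm h y := by
  by_cases hy : Sm h x
  · exact Or.inl hy
  · right
    have h1 := hxy.mul h2 (inv_bd_of_not_sm h2 hy)
    have h0 : x ≠ 0 := fun h0 => hy (h0 ▸ Sm.zero)
    rwa [show x * y * x⁻¹ = y by field_simp] at h1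

theorem Sm.eq_zero_of_mem (h2 : ∀ i, 2 ≤ h i) {L : Subfield (F U)} (hL : ∀ y ∈ L, Bd h y)
    {x : F U} (hx : Sm h x) (hxL : x ∈ L) : x = 0 := by
  by_contra h0
  have h1 := hx.mul h2 (hL _ (L.inv_mem hxL))
  rw [mul_inv_cancel₀ h0] at h1
  exact not_sm_one h2 h1

end H596.U
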