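import Pool.Agent.H596.U.Alg

/-!
# Sums of exponentials with algebraic coefficients of bounded degree and height
-/

open Filter Polynomial

namespace H596.U

/-- `ξ + ∑ ρ_i e^(α_i)` -/
noncomputable def esum {n : ℕ} (α : Fin n → ℂ) (v : Option (Fin n) → ℂ) : ℂ :=
  v none + ∑ i, v (some i) * Complex.exp (α i)

theorem esum_sub {n : ℕ} (α : Fin n → ℂ) (v w : Option (Fin n) → ℂ) :
    esum α v - esum α w = esum α (v - w) := by
  simp only [esum, Pi.sub_apply, sub_mul, Finset.sum_sub_distrib]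
  ring

/-- The theorem of Lindemann and Weierstrass. -/
theorem esum_eq_zero {n : ℕ} (α : Fin n → ℂ) (hα : ∀ i, IsAlgebraic ℚ (α i))
    (h0 : ∀ i, α i ≠ 0) (hinj : Function.Injective α) (v : Option (Fin n) → ℂ)
    (hv : ∀ o, IsAlgebraic ℚ (v o)) (h : esum α v = 0) : v = 0 := by
  have h1 := Pool.Agent.H340R2.LW.lindemann_weierstrass (Finset.univ : Finset (Option (Fin n)))
    (fun o => o.elim 0 α) v (fun o _ => by
      cases o with
      | none => exact isAlgebraic_zero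
      | some i => exact hα i) (fun o _ => hv o) (by
      rintro (_ | i) - (_ | j) - hij
      · rfl
      · exact absurd hij.symm (h0 j)
      · exact absurd hij (h0 i)
      · exact congrArg some (hinj hij)) (by
      rw [Fintype.sum_option]
      simpa [esum] using h)
  funext o
  exact h1 o (Finset.mem_univ _)

/-- Different sums are separated. -/
theorem esum_separated {n : ℕ} (α : Fin n → ℂ) (hα : ∀ i, IsAlgebraic ℚ (α i))
    (h0 : ∀ i, α i ≠ 0) (hinj : Function.Injective α) (D : ℕ) :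
    ∃ k : ℕ, ∀ H : ℝ, 2 ≤ H → ∀ v w : Option (Fin n) → ℂ, (∀ o, v o ∈ AlgH D H) →
      (∀ o, w o ∈ AlgH D H) → v ≠ w → 1 / H ^ k < ‖esum α v - esum α w‖ := by
  classical
  by_contra hcon
  push Not at hcon
  choose h h2 v w hv hw hne hs using hcon
  obtain ⟨L, hx, hA, -, hL⟩ := base_alg (U := hyperfilter ℕ) h2 (meas_exp α hα)
  have hsm := sm_of_seq h2 _ hs
  have hmem : ∀ u : ℕ → Option (Fin n) → ℂ, (∀ k o, u k o ∈ AlgH D (h k)) →
      cl (hyperfilter ℕ : Ultrafilter ℕ) (fun k => esum α (u k)) ∈ L := by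
    intro u hu
    have h1 : ∀ o, cl (hyperfilter ℕ : Ultrafilter ℕ) (fun k => u k o) ∈ L := fun o =>
      hA D 1 _ (Eventually.of_forall fun k => by rw [pow_one]; exact hu k o)
    have h3 : (fun k => esum α (u k)) = (fun k => u k none) +
        ∑ i, (fun k => u k (some i)) * fun _ => Complex.exp (α i) := by
      funext k
      simp [esum]
    rw [h3, map_add, map_sum]
    refine L.add_mem (h1 none) (L.sum_mem fun i _ => ?_)
    rw [map_mul]
    exact L.mul_mem (h1 (some i)) (hx i)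
  have h4 : cl (hyperfilter ℕ : Ultrafilter ℕ) (fun k => esum α (v k) - esum α (w k)) ∈ L := by
    have h5 : (fun k => esum α (v k) - esum α (w k)) =
        (fun k => esum α (v k)) - fun k => esum α (w k) := rfl
    rw [h5, map_sub]
    exact L.sub_mem (hmem v hv) (hmem w hw)
  have h5 := hsm.eq_zero_of_mem h2 hL h4
  rw [← map_zero (cl (hyperfilter ℕ : Ultrafilter ℕ))] at h5
  obtain ⟨k, hk⟩ := (cl_eq.1 h5).exists
  apply hne k
  have h6 : esum α (v k - w k) = 0 := by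
    rw [← esum_sub]
    exact hk
  have h7 := esum_eq_zero α hα h0 hinj _ (fun o =>
    (algH_one_mem (hv k o)).sub (algH_one_mem (hw k o))) h6
  exact sub_eq_zero.1 h7

theorem AlgH.mono {D : ℕ} {H H' : ℝ} (hH : H ≤ H') {ρ : ℂ} (hρ : ρ ∈ AlgH D H) : ρ ∈ AlgH D H' := by
  obtain ⟨R, h1, h2, h3, h4⟩ := hρ
  exact ⟨R, h1, h2, fun j => (h3 j).trans hH, h4⟩

/-- A chain of scales. -/
theorem chain (f : ℝ → ℝ) (X₀ : ℝ) (A : ℕ) (hf1 : ∀ X, X₀ ≤ X → 2 ≤ X → X ≤ f X)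
    (hf2 : ∀ X, X₀ ≤ X → 2 ≤ X → f X ≤ X ^ A) :
    ∃ a : ℕ → ℝ, (∀ n, X₀ ≤ a n) ∧ (∀ n, 2 ≤ a n) ∧ (∀ n, 2 ≤ f (a n)) ∧
      (∀ n, f (a n) ≤ f (a (n + 1))) ∧ (∀ n, f (a (n + 1)) ≤ f (a n) ^ (2 * A)) ∧
      ∀ n : ℕ, (n : ℝ) ≤ f (a n) := by
  obtain ⟨a, a0, aS⟩ : ∃ a : ℕ → ℝ, a 0 = max X₀ 2 ∧ ∀ n, a (n + 1) = f (a n) + 1 :=
    ⟨fun n => Nat.rec (max X₀ 2) (fun _ b => f b + 1) n, rfl, fun _ => rfl⟩
  have ha : ∀ n : ℕ, max X₀ 2 + n ≤ a n := by
    intro n
    induction n with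
    | zero => simp [a0]
    | succ n ih =>
      have h0 : (0 : ℝ) ≤ n := Nat.cast_nonneg n
      have h4 := hf1 (a n) ((le_max_left X₀ 2).trans (by linarith))
        ((le_max_right X₀ 2).trans (by linarith))
      rw [aS]
      push_cast
      linarith
  have ha1 : ∀ n, X₀ ≤ a n := fun n => (le_max_left _ _).trans (by
    have : (0 : ℝ) ≤ n := Nat.cast_nonneg n
    linarith [ha n])
  have ha2 : ∀ n, 2 ≤ a n := fun n => (le_max_right X₀ 2).trans (by
    have : (0 : ℝ) ≤ n := Nat.cast_nonneg n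
    linarith [ha n])
  have hah : ∀ n, a n ≤ f (a n) := fun n => hf1 (a n) (ha1 n) (ha2 n)
  refine ⟨a, ha1, ha2, fun n => (ha2 n).trans (hah n), fun n => ?_, fun n => ?_, fun n => ?_⟩
  · have := hah (n + 1)
    rw [aS] at this ⊢
    linarith
  · have h1 := hf2 (a (n + 1)) (ha1 (n + 1)) (ha2 (n + 1))
    refine h1.trans ?_
    rw [pow_mul]
    refine pow_le_pow_left₀ (by linarith [ha2 (n + 1)]) ?_ A
    rw [aS]
    have := (ha2 n).trans (hah n)
    nlinarith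
  · have h1 := ha n
    have h3 := hah n
    linarith [le_max_right X₀ 2]

/-- Windows of scales without good approximations, or an exact relation. -/
theorem esum_windows {n : ℕ} (α : Fin n → ℂ) (hα : ∀ i, IsAlgebraic ℚ (α i))
    (h0 : ∀ i, α i ≠ 0) (hinj : Function.Injective α) (t : ℂ)
    (ht : ∀ v : Option (Fin n) → ℂ, (∀ o, IsAlgebraic ℚ (v o)) → esum α v ≠ t) (D A : ℕ) :
    ∃ k : ℕ, ∀ X₀ : ℝ, ∃ X : ℝ, X₀ ≤ X ∧ 2 ≤ X ∧ ∀ H : ℝ, X ≤ H → H ≤ X ^ A →
      ∀ v : Option (Fin n) → ℂ, (∀ o, v o ∈ AlgH D H) → 1 / H ^ k < ‖t - esum α v‖ := by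
  classical
  obtain ⟨ks, hks⟩ := esum_separated α hα h0 hinj D
  refine ⟨2 * A * (ks + 1) + (ks + 1), ?_⟩
  by_contra hcon
  push Not at hcon
  obtain ⟨X₀, hcon⟩ := hcon
  choose! f hf1 hf2 v hv hvs using hcon
  obtain ⟨a, ha1, ha2, hh2, hhS, hhA, hhn⟩ := chain f X₀ A hf1 hf2
  obtain ⟨h, hdef⟩ : ∃ h : ℕ → ℝ, ∀ n, h n = f (a n) := ⟨fun n => f (a n), fun _ => rfl⟩
  simp only [← hdef] at hh2 hhS hhA hhn
  have hv' : ∀ n o, v (a n) o ∈ AlgH D (h n) := fun n o => by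
    rw [hdef]
    exact hv _ (ha1 n) (ha2 n) o
  have hvs' : ∀ n, ‖t - esum α (v (a n))‖ ≤ 1 / h n ^ (2 * A * (ks + 1) + (ks + 1)) := fun n => by
    rw [hdef]
    exact hvs _ (ha1 n) (ha2 n)
  have hstep : ∀ n, v (a n) = v (a (n + 1)) := by
    intro n
    by_contra hne
    have h3 := hks (h (n + 1)) (hh2 (n + 1)) (v (a n)) (v (a (n + 1)))
      (fun o => AlgH.mono (hhS n) (hv' n o)) (hv' (n + 1)) hne
    have h1 : (1 : ℝ) ≤ h n := by linarith [hh2 n]
    have h1' : (1 : ℝ) ≤ h (n + 1) := by linarith [hh2 (n + 1)]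
    have h4 : 1 / h n ^ (2 * A * (ks + 1) + (ks + 1)) ≤ 1 / h (n + 1) ^ (ks + 1) := by
      refine one_div_le_one_div_of_le (by positivity) ?_
      calc h (n + 1) ^ (ks + 1) ≤ (h n ^ (2 * A)) ^ (ks + 1) :=
            pow_le_pow_left₀ (by linarith) (hhA n) _
        _ = h n ^ (2 * A * (ks + 1)) := by rw [← pow_mul]
        _ ≤ _ := pow_le_pow_right₀ h1 (by omega)
    have h5 : 1 / h (n + 1) ^ (2 * A * (ks + 1) + (ks + 1)) ≤ 1 / h (n + 1) ^ (ks + 1) := by
      refine one_div_le_one_div_of_le (by positivity) ?_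
      exact pow_le_pow_right₀ h1' (by omega)
    have h6 : ‖esum α (v (a n)) - esum α (v (a (n + 1)))‖ ≤
        ‖t - esum α (v (a (n + 1)))‖ + ‖t - esum α (v (a n))‖ := by
      have : esum α (v (a n)) - esum α (v (a (n + 1))) =
          (t - esum α (v (a (n + 1)))) - (t - esum α (v (a n))) := by ring
      rw [this]
      exact norm_sub_le _ _
    have h7 : 2 * (1 / h (n + 1) ^ (ks + 1)) ≤ 1 / h (n + 1) ^ ks := by
      rw [pow_succ, ← div_div]
      have h8 : 0 < 1 / h (n + 1) ^ ks := by positivity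
      have h9 : 1 / h (n + 1) ^ ks / h (n + 1) ≤ 1 / h (n + 1) ^ ks / 2 :=
        div_le_div_of_nonneg_left h8.le (by norm_num) (hh2 (n + 1))
      linarith
    linarith [hvs' n, hvs' (n + 1)]
  have hconst : ∀ n, v (a n) = v (a 0) := by
    intro n
    induction n with
    | zero => rfl
    | succ n ih => rw [← hstep n, ih]
  refine ht (v (a 0)) (fun o => algH_one_mem (hv' 0 o)) ?_
  by_contra hne
  have hpos : 0 < ‖t - esum α (v (a 0))‖ := norm_pos_iff.2 (sub_ne_zero.2 (Ne.symm hne))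
  obtain ⟨n, hn⟩ := exists_nat_gt (‖t - esum α (v (a 0))‖)⁻¹
  have h3 := hvs' n
  rw [hconst n] at h3
  have h1 : (1 : ℝ) ≤ h n := by linarith [hh2 n]
  have h5 : h n ≤ h n ^ (2 * A * (ks + 1) + (ks + 1)) := le_self_pow₀ h1 (by omega)
  have h6 : 1 / h n ^ (2 * A * (ks + 1) + (ks + 1)) ≤ 1 / h n :=
    one_div_le_one_div_of_le (by linarith) h5
  have h7 : h n ≤ (‖t - esum α (v (a 0))‖)⁻¹ := by
    rw [le_inv_comm₀ (by linarith) hpos, ← one_div]
    exact h3.trans h6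
  linarith [hhn n]

end H596.U
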