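import Pool.Agent.H596.U.Ext
import Pool.Agent.H596.Q.Mv

/-!
# Tuples with a measure of algebraic independence, and near relations

`Meas x` says that all values `P(x)` of integer polynomials are zero or not polynomially small,
for each bound for the degree. `transfer`: near relations between `x` and arbitrary numbers `t` are
exact relations for a point `t'` close to `t`.
-/

open Filter

namespace H596.U

/-- The values at `x` of the integer polynomials of bounded degree are zero or not smaller than a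
power of the height. -/
def Meas {σ : Type*} (x : σ → ℂ) : Prop :=
  ∀ d : ℕ, ∃ c : ℝ, 0 < c ∧ ∃ k : ℕ, ∀ H : ℝ, 1 ≤ H → ∀ P : MvPolynomial σ ℤ,
    P.totalDegree ≤ d → (∀ m, |((P.coeff m : ℤ) : ℝ)| ≤ H) → MvPolynomial.aeval x P ≠ 0 →
    c ≤ ‖MvPolynomial.aeval x P‖ * H ^ k

variable {ι : Type} {U : Ultrafilter ι} {h : ι → ℝ}

/-- The polynomially bounded integers of the ultrapower. -/
noncomputable def Zb (U : Ultrafilter ι) (h : ι → ℝ) (h2 : ∀ i, 2 ≤ h i) : Subring (F U) where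
  carrier := {y | Bd h y ∧ ∃ n : ι → ℤ, cl U (fun i => (n i : ℂ)) = y}
  mul_mem' := by
    rintro _ _ ⟨ha, n, rfl⟩ ⟨hb, m, rfl⟩
    refine ⟨(Av U h h2).mul_mem _ _ ha hb, fun i => n i * m i, ?_⟩
    rw [← map_mul]
    congr 1
    funext i
    simp
  one_mem' := ⟨(Av U h h2).one_mem, fun _ => 1, by
    rw [← map_one (cl U)]
    congr 1
    funext i
    simp⟩
  add_mem' := by
    rintro _ _ ⟨ha, n, rfl⟩ ⟨hb, m, rfl⟩
    refine ⟨(Av U h h2).add_mem _ _ ha hb, fun i => n i + m i, ?_⟩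
    rw [← map_add]
    congr 1
    funext i
    simp
  zero_mem' := ⟨(Av U h h2).zero_mem, fun _ => 0, by
    rw [← map_zero (cl U)]
    congr 1
    funext i
    simp⟩
  neg_mem' := by
    rintro _ ⟨ha, n, rfl⟩
    refine ⟨(Av U h h2).neg_mem _ ha, fun i => - n i, ?_⟩
    rw [← map_neg]
    congr 1
    funext i
    simp

theorem const_bd (h2 : ∀ i, 2 ≤ h i) (a : ℂ) : Bd h (cl U fun _ => a) := by
  obtain ⟨C, hC⟩ := pow_unbounded_of_one_lt ‖a‖ (one_lt_two : (1 : ℝ) < 2)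
  exact bd_cl.2 ⟨C, Eventually.of_forall fun i =>
    hC.le.trans (pow_le_pow_left₀ (by norm_num) (h2 i) C)⟩

section base

variable {σ : Type*} {x : σ → ℂ}

theorem repr_of_mem (h2 : ∀ i, 2 ≤ h i) {a : F U}
    (ha : a ∈ Subring.closure ((Zb U h h2 : Set (F U)) ∪ Set.range fun j => cl U fun _ => x j)) :
    ∃ (D : ℕ) (C : ℕ) (Q : ι → MvPolynomial σ ℤ), (∀ i, (Q i).totalDegree ≤ D) ∧
      (∀ᶠ i in U, ∀ m, |(((Q i).coeff m : ℤ) : ℝ)| ≤ h i ^ C) ∧
      cl U (fun i => MvPolynomial.aeval x (Q i)) = a := by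
  classical
  have h1 : a ∈ Algebra.adjoin (Zb U h h2) (Set.range fun j => cl U fun _ => x j) := by
    have : Subring.closure ((Zb U h h2 : Set (F U)) ∪ Set.range fun j => cl U fun _ => x j) ≤
        (Algebra.adjoin (Zb U h h2) (Set.range fun j => cl U fun _ => x j)).toSubring := by
      rw [Subring.closure_le]
      rintro b (hb | hb)
      · exact (Algebra.adjoin (Zb U h h2) _).algebraMap_mem ⟨b, hb⟩
      · exact Algebra.subset_adjoin hb
    exact this ha
  rw [Algebra.adjoin_range_eq_range_aeval] at h1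
  obtain ⟨P, rfl⟩ := h1
  choose hbd n hn using fun m : σ →₀ ℕ => (P.coeff m).2
  have hbd' : ∀ m, ∃ C : ℕ, ∀ᶠ i in U, ‖((n m i : ℤ) : ℂ)‖ ≤ h i ^ C := fun m => by
    have := hbd m
    rw [← hn m, bd_cl] at this
    exact this
  choose C hC using hbd'
  refine ⟨P.totalDegree, P.support.sup C, fun i => ∑ m ∈ P.support, MvPolynomial.monomial m (n m i),
    ?_, ?_, ?_⟩
  · intro i
    refine MvPolynomial.totalDegree_finsetSum_le fun m hm => ?_
    refine (MvPolynomial.totalDegree_monomial_le _ _).trans ?_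
    exact MvPolynomial.le_totalDegree hm
  · have hall : ∀ᶠ i in U, ∀ m ∈ P.support, ‖((n m i : ℤ) : ℂ)‖ ≤ h i ^ C m := by
      exact (Filter.eventually_all_finset P.support).2 fun m _ => hC m
    filter_upwards [hall] with i hi m
    have h1 : (1 : ℝ) ≤ h i := by linarith [h2 i]
    rw [MvPolynomial.coeff_sum]
    simp only [MvPolynomial.coeff_monomial]
    rw [Finset.sum_ite_eq']
    split_ifs with hm
    · have := hi m hm
      rw [Complex.norm_intCast] at this
      exact this.trans (pow_le_pow_right₀ h1 (Finset.le_sup hm))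
    · simpa using pow_nonneg (by linarith) _
  · have hP : (MvPolynomial.aeval (fun j => cl U fun _ => x j)) P =
        ∑ m ∈ P.support, cl U (fun i => (n m i : ℂ)) * cl U (fun _ => ∏ j ∈ m.support, x j ^ m j) := by
      rw [MvPolynomial.aeval_def, MvPolynomial.eval₂_eq]
      refine Finset.sum_congr rfl fun m _ => ?_
      congr 1
      · exact (hn m).symm
      · have : (fun _ : ι => ∏ j ∈ m.support, x j ^ m j) =
            ∏ j ∈ m.support, (fun _ : ι => x j) ^ m j := by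
          funext i
          simp
        rw [this, map_prod]
        simp only [map_pow]
    change _ = (MvPolynomial.aeval (fun j => cl U fun _ => x j)) P
    rw [hP]
    simp only [← map_mul, ← map_sum]
    congr 1
    funext i
    rw [map_sum, Finset.sum_apply]
    refine Finset.sum_congr rfl fun m _ => ?_
    rw [MvPolynomial.aeval_monomial]
    simp [Finsupp.prod]

theorem inv_bd_of_repr (h2 : ∀ i, 2 ≤ h i) (hx : Meas x) {a : F U} (ha0 : a ≠ 0)
    (ha : ∃ (D : ℕ) (C : ℕ) (Q : ι → MvPolynomial σ ℤ), (∀ i, (Q i).totalDegree ≤ D) ∧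
      (∀ᶠ i in U, ∀ m, |(((Q i).coeff m : ℤ) : ℝ)| ≤ h i ^ C) ∧
      cl U (fun i => MvPolynomial.aeval x (Q i)) = a) : Bd h a⁻¹ := by
  obtain ⟨D, C, Q, hD, hC, rfl⟩ := ha
  obtain ⟨c, hc, k, hk⟩ := hx D
  obtain ⟨M, hM⟩ := pow_unbounded_of_one_lt c⁻¹ (one_lt_two : (1 : ℝ) < 2)
  have hne : ∀ᶠ i in U, MvPolynomial.aeval x (Q i) ≠ 0 := by
    rw [Ultrafilter.eventually_not]
    intro hcon
    apply ha0
    rw [← map_zero (cl U)]
    exact cl_eq.2 hcon
  refine ⟨(fun i => MvPolynomial.aeval x (Q i))⁻¹, Germ.coe_inv _, M + C * k, ?_⟩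
  filter_upwards [hC, hne] with i h3 h4
  have h1 : (1 : ℝ) ≤ h i := by linarith [h2 i]
  have h5 := hk (h i ^ C) (one_le_pow₀ h1) (Q i) (hD i) h3 h4
  rw [Pi.inv_apply, norm_inv, pow_add, pow_mul]
  have h6 : 0 < ‖MvPolynomial.aeval x (Q i)‖ := norm_pos_iff.2 h4
  rw [inv_le_iff_one_le_mul₀ h6]
  have h7 : c⁻¹ ≤ h i ^ M := hM.le.trans (pow_le_pow_left₀ (by norm_num) (h2 i) M)
  calc (1 : ℝ) = c⁻¹ * c := by field_simp
    _ ≤ h i ^ M * (‖MvPolynomial.aeval x (Q i)‖ * (h i ^ C) ^ k) := by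
        gcongr
    _ = _ := by ring

/-- The field generated by the polynomially bounded integers and a tuple with a measure. -/
theorem base (h2 : ∀ i, 2 ≤ h i) (hx : Meas x) :
    ∃ L : Subfield (F U), (∀ j, cl U (fun _ => x j) ∈ L) ∧
      (∀ n : ι → ℤ, Bd h (cl U fun i => (n i : ℂ)) → cl U (fun i => (n i : ℂ)) ∈ L) ∧
      ∀ z ∈ L, Bd h z := by
  refine ⟨Subfield.closure ((Zb U h h2 : Set (F U)) ∪ Set.range fun j => cl U fun _ => x j),
    fun j => Subfield.subset_closure (Or.inr ⟨j, rfl⟩),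
    fun n hn => Subfield.subset_closure (Or.inl ⟨hn, n, rfl⟩), ?_⟩
  intro z hz
  obtain ⟨a, ha, b, hb, rfl⟩ := Subfield.mem_closure_iff.1 hz
  have hA : Subring.closure ((Zb U h h2 : Set (F U)) ∪ Set.range fun j => cl U fun _ => x j) ≤
      (Av U h h2).toSubring := by
    rw [Subring.closure_le]
    rintro y (hy | ⟨j, rfl⟩)
    · exact hy.1
    · exact const_bd h2 _
  rw [div_eq_mul_inv]
  refine (Av U h h2).mul_mem _ _ (hA ha) ?_
  by_cases hb0 : b = 0
  · rw [hb0, inv_zero]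
    exact (Av U h h2).zero_mem
  · exact inv_bd_of_repr h2 hx hb0 (repr_of_mem h2 hb)

end base

theorem cl_const_ne {a : ℂ} (ha : a ≠ 0) : cl U (fun _ : ι => a) ≠ 0 := by
  rw [← map_zero (cl U)]
  intro h1
  obtain ⟨i, hi⟩ := (cl_eq.1 h1).exists
  exact ha hi

section poly

variable {τ : Type*} [Fintype τ]

theorem box_le {d : ℕ} {m : τ →₀ ℕ} (hm : m ∈ Pool.Agent.H596.Q.box τ d) (i : τ) : m i ≤ d := by
  classical
  rw [Pool.Agent.H596.Q.box, Finset.mem_image] at hm
  obtain ⟨f, hf, rfl⟩ := hm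
  have := Finset.mem_range.1 (Fintype.mem_piFinset.1 hf i)
  simp only [Finsupp.equivFunOnFinite_symm_apply_apply]
  omega

theorem aeval_box (s : τ → ℂ) (d : ℕ) (P : MvPolynomial τ ℤ) (hP : P.totalDegree ≤ d) :
    MvPolynomial.aeval s P =
      ∑ m ∈ Pool.Agent.H596.Q.box τ d, ((P.coeff m : ℤ) : ℂ) * ∏ i, s i ^ m i := by
  classical
  rw [MvPolynomial.aeval_def, MvPolynomial.eval₂_eq']
  refine Finset.sum_subset (fun m hm => ?_) fun m _ hm => ?_
  · refine Pool.Agent.H596.Q.mem_box d m fun i => ?_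
    have h1 := MvPolynomial.le_totalDegree hm
    have h3 : m i ≤ m.sum fun _ e => e := by
      rw [Finsupp.sum_fintype _ _ fun _ => rfl]
      exact Finset.single_le_sum (f := fun j => m j) (fun _ _ => Nat.zero_le _) (Finset.mem_univ i)
    omega
  · rw [MvPolynomial.notMem_support_iff.1 hm]
    simp

theorem cl_aeval (s : τ → ι → ℂ) (d : ℕ) (P : ι → MvPolynomial τ ℤ)
    (hP : ∀ i, (P i).totalDegree ≤ d) :
    cl U (fun i => MvPolynomial.aeval (fun j => s j i) (P i)) =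
      ∑ m ∈ Pool.Agent.H596.Q.box τ d, cl U (fun i => (((P i).coeff m : ℤ) : ℂ)) *
        ∏ j, cl U (s j) ^ m j := by
  have h1 : (fun i => MvPolynomial.aeval (fun j => s j i) (P i)) =
      ∑ m ∈ Pool.Agent.H596.Q.box τ d, (fun i => (((P i).coeff m : ℤ) : ℂ)) *
        ∏ j, s j ^ m j := by
    funext i
    rw [aeval_box _ d _ (hP i), Finset.sum_apply]
    refine Finset.sum_congr rfl fun m _ => ?_
    simp
  rw [h1, map_sum]
  simp only [map_mul, map_prod, map_pow]

omit [Fintype τ] in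
theorem coeff_bd (P : ι → MvPolynomial τ ℤ) (C : ℕ)
    (hP : ∀ᶠ i in U, ∀ m, |(((P i).coeff m : ℤ) : ℝ)| ≤ h i ^ C) (m : τ →₀ ℕ) :
    Bd h (cl U fun i => (((P i).coeff m : ℤ) : ℂ)) := by
  refine bd_cl.2 ⟨C, ?_⟩
  filter_upwards [hP] with i hi
  rw [Complex.norm_intCast]
  exact hi m

/-- The value belongs to each subfield which contains the bounded integers and the point. -/
theorem aeval_mem {L : Subfield (F U)}
    (hZ : ∀ n : ι → ℤ, Bd h (cl U fun i => (n i : ℂ)) → cl U (fun i => (n i : ℂ)) ∈ L)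
    (s : τ → ι → ℂ) (hs : ∀ j, cl U (s j) ∈ L) (d : ℕ) (P : ι → MvPolynomial τ ℤ)
    (hP : ∀ i, (P i).totalDegree ≤ d) (C : ℕ)
    (hPC : ∀ᶠ i in U, ∀ m, |(((P i).coeff m : ℤ) : ℝ)| ≤ h i ^ C) :
    cl U (fun i => MvPolynomial.aeval (fun j => s j i) (P i)) ∈ L := by
  rw [cl_aeval s d P hP]
  refine L.sum_mem fun m _ => L.mul_mem (hZ _ (coeff_bd P C hPC m)) ?_
  exact L.prod_mem fun j _ => pow_mem (hs j) _

theorem sm_prod_sub (h2 : ∀ i, 2 ≤ h i) (a b : τ → F U) (ha : ∀ j, Bd h (a j))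
    (hb : ∀ j, Bd h (b j)) (hab : ∀ j, Sm h (a j - b j)) (m : τ → ℕ) :
    Sm h (∏ j, a j ^ m j - ∏ j, b j ^ m j) := by
  classical
  have hpow : ∀ j n, Sm h (a j ^ n - b j ^ n) := by
    intro j n
    induction n with
    | zero => simpa using Sm.zero
    | succ n ih =>
      have : a j ^ (n + 1) - b j ^ (n + 1) = (a j ^ n - b j ^ n) * a j + (a j - b j) * b j ^ n := by
        ring
      rw [this]
      exact (ih.mul h2 (ha j)).add h2 ((hab j).mul h2 (pow_mem (S := Av U h h2) (hb j) n))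
  suffices H : ∀ s : Finset τ, Sm h (∏ j ∈ s, a j ^ m j - ∏ j ∈ s, b j ^ m j) from H _
  intro s
  induction s using Finset.induction_on with
  | empty => simpa using Sm.zero
  | insert j s hj ih =>
    rw [Finset.prod_insert hj, Finset.prod_insert hj]
    have : a j ^ m j * ∏ i ∈ s, a i ^ m i - b j ^ m j * ∏ i ∈ s, b i ^ m i =
        (a j ^ m j - b j ^ m j) * (∏ i ∈ s, a i ^ m i) +
          (∏ i ∈ s, a i ^ m i - ∏ i ∈ s, b i ^ m i) * b j ^ m j := by ring
    rw [this]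
    refine ((hpow j _).mul h2 ?_).add h2 (ih.mul h2 (pow_mem (S := Av U h h2) (hb j) _))
    exact prod_mem (S := Av U h h2) fun i _ => pow_mem (S := Av U h h2) (ha i) _

theorem sm_aeval_sub (h2 : ∀ i, 2 ≤ h i) (s s' : τ → ι → ℂ) (hs : ∀ j, Bd h (cl U (s j)))
    (hs' : ∀ j, Bd h (cl U (s' j))) (hss : ∀ j, Sm h (cl U (s j) - cl U (s' j)))
    (d : ℕ) (P : ι → MvPolynomial τ ℤ)
    (hP : ∀ i, (P i).totalDegree ≤ d) (C : ℕ)
    (hPC : ∀ᶠ i in U, ∀ m, |(((P i).coeff m : ℤ) : ℝ)| ≤ h i ^ C) :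
    Sm h (cl U (fun i => MvPolynomial.aeval (fun j => s j i) (P i)) -
      cl U (fun i => MvPolynomial.aeval (fun j => s' j i) (P i))) := by
  rw [cl_aeval s d P hP, cl_aeval s' d P hP, ← Finset.sum_sub_distrib]
  refine Sm.sum h2 _ _ fun m _ => ?_
  rw [← mul_sub, mul_comm]
  exact (sm_prod_sub h2 _ _ hs hs' hss _).mul h2 (coeff_bd P C hPC m)

end poly

end H596.U
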