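import Pool.Agent.H596.U.Lin

/-!
# Near relations between several arbitrary numbers and exponentials of algebraic numbers
-/

open Filter

namespace H596.U

/-! ### Linear relations with algebraic coefficients -/

/-- More than `r` exact relations for `r` numbers are dependent. -/
theorem exact_dependent {n r : ℕ} (α : Fin n → ℂ) (hα : ∀ i, IsAlgebraic ℚ (α i))
    (h0 : ∀ i, α i ≠ 0) (hinj : Function.Injective α) (t : Fin r → ℂ)
    (b : Fin (r + 1) → Fin r → ℂ) (v : Fin (r + 1) → Option (Fin n) → ℂ)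
    (hb : ∀ l i, IsAlgebraic ℚ (b l i)) (hv : ∀ l o, IsAlgebraic ℚ (v l o))
    (h : ∀ l, ∑ i, b l i * t i + esum α (v l) = 0) :
    ∃ c : Fin (r + 1) → ℂ, (∀ l, IsAlgebraic ℚ (c l)) ∧ (∃ l, c l ≠ 0) ∧
      (∀ i, ∑ l, c l * b l i = 0) ∧ ∀ o, ∑ l, c l * v l o = 0 := by
  classical
  let K := algebraicClosure ℚ ℂ
  let b' : Fin (r + 1) → Fin r → K := fun l i => ⟨b l i, mem_algebraicClosure_iff.2 (hb l i)⟩
  have hdep : ¬ LinearIndependent K b' := by
    intro hli
    have := hli.fintype_card_le_finrank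
    simp at this
  obtain ⟨g, hg, l, hl⟩ := Fintype.not_linearIndependent_iff.1 hdep
  have hgb : ∀ i, ∑ l, (g l : ℂ) * b l i = 0 := by
    intro i
    have h1 := congrFun hg i
    have h2 := congrArg (fun z : K => (z : ℂ)) h1
    simpa [Finset.sum_apply, b'] using h2
  refine ⟨fun l => (g l : ℂ), fun l => mem_algebraicClosure_iff.1 (g l).2, ⟨l, fun h0' => hl ?_⟩,
    hgb, ?_⟩
  · exact Subtype.ext h0'
  · have h3 : esum α (fun o => ∑ l, (g l : ℂ) * v l o) = 0 := by
      have h4 : ∑ l, (g l : ℂ) * (∑ i, b l i * t i + esum α (v l)) = 0 :=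
        Finset.sum_eq_zero fun l _ => by rw [h l, mul_zero]
      have h5 : ∑ l, (g l : ℂ) * (∑ i, b l i * t i) = 0 := by
        simp only [Finset.mul_sum]
        rw [Finset.sum_comm]
        refine Finset.sum_eq_zero fun i _ => ?_
        have : ∑ l, (g l : ℂ) * (b l i * t i) = (∑ l, (g l : ℂ) * b l i) * t i := by
          rw [Finset.sum_mul]
          exact Finset.sum_congr rfl fun l _ => by ring
        rw [this, hgb i, zero_mul]
      simp only [mul_add, Finset.sum_add_distrib] at h4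
      rw [h5, zero_add] at h4
      rw [← h4]
      simp only [esum, mul_add, Finset.mul_sum, Finset.sum_mul, Finset.sum_add_distrib]
      congr 1
      rw [Finset.sum_comm]
      exact Finset.sum_congr rfl fun i _ => Finset.sum_congr rfl fun l _ => by ring
    have h6 := esum_eq_zero α hα h0 hinj _ (fun o => by
      have : ∀ s : Finset (Fin (r + 1)), IsAlgebraic ℚ (∑ l ∈ s, (g l : ℂ) * v l o) := by
        intro s
        exact Finset.sum_induction _ (IsAlgebraic ℚ) (fun a b ha hb => ha.add hb) isAlgebraic_zero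
          fun l _ => (mem_algebraicClosure_iff.1 (g l).2).mul (hv l o)
      exact this _) h3
    intro o
    exact congrFun h6 o

/-- More than `r` near relations for `r` numbers are dependent. -/
theorem linear_rank {n r : ℕ} (α : Fin n → ℂ) (hα : ∀ i, IsAlgebraic ℚ (α i))
    (h0 : ∀ i, α i ≠ 0) (hinj : Function.Injective α) (D B : ℕ) :
    ∃ k : ℕ, ∀ H : ℝ, 2 ≤ H → ∀ t : Fin r → ℂ, (∀ i, ‖t i‖ ≤ H ^ B) →
      ∀ (b : Fin (r + 1) → Fin r → ℂ) (v : Fin (r + 1) → Option (Fin n) → ℂ),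
        (∀ l i, b l i ∈ AlgH D H) → (∀ l o, v l o ∈ AlgH D H) →
        (∀ l, ‖∑ i, b l i * t i + esum α (v l)‖ ≤ 1 / H ^ k) →
        ∃ c : Fin (r + 1) → ℂ, (∀ l, IsAlgebraic ℚ (c l)) ∧ (∃ l, c l ≠ 0) ∧
          (∀ i, ∑ l, c l * b l i = 0) ∧ ∀ o, ∑ l, c l * v l o = 0 := by
  classical
  by_contra hcon
  push Not at hcon
  choose h h2 t ht b v hb hv hs hno using hcon
  obtain ⟨L, hx, hA, -, hL⟩ := base_alg (U := hyperfilter ℕ) h2 (meas_exp α hα)
  have htb : ∀ i, Bd h (cl (hyperfilter ℕ : Ultrafilter ℕ) fun k => t k i) := fun i =>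
    bd_cl.2 ⟨B, Eventually.of_forall fun k => ht k i⟩
  obtain ⟨s, L', hLL, hsL, hL', hss⟩ := ext_many h2 hL _ htb
  choose t' ht' using fun i => cl_surj (s i)
  have hbL : ∀ l i, cl (hyperfilter ℕ : Ultrafilter ℕ) (fun k => b k l i) ∈ L := fun l i =>
    hA D 1 _ (Eventually.of_forall fun k => by rw [pow_one]; exact hb k l i)
  have hvL : ∀ l o, cl (hyperfilter ℕ : Ultrafilter ℕ) (fun k => v k l o) ∈ L := fun l o =>
    hA D 1 _ (Eventually.of_forall fun k => by rw [pow_one]; exact hv k l o)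
  have heq : ∀ (l : Fin (r + 1)) (z : Fin r → ℕ → ℂ),
      cl (hyperfilter ℕ : Ultrafilter ℕ) (fun k => ∑ i, b k l i * z i k + esum α (v k l)) =
        ∑ i, cl _ (fun k => b k l i) * cl _ (z i) + (cl _ (fun k => v k l none) +
          ∑ i, cl _ (fun k => v k l (some i)) * cl _ fun _ => Complex.exp (α i)) := by
    intro l z
    have h3 : (fun k => ∑ i, b k l i * z i k + esum α (v k l)) =
        ∑ i, (fun k => b k l i) * z i + ((fun k => v k l none) +
          ∑ i, (fun k => v k l (some i)) * fun _ => Complex.exp (α i)) := by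
      funext k
      simp [esum]
    rw [h3]
    simp only [map_add, map_sum, map_mul]
  have hexact : ∀ l, ∀ᶠ k in (hyperfilter ℕ : Ultrafilter ℕ),
      ∑ i, b k l i * t' i k + esum α (v k l) = 0 := by
    intro l
    have h3 := sm_of_seq h2 _ (fun k => hs k l)
    rw [heq l (fun i k => t k i)] at h3
    have h4 : cl (hyperfilter ℕ : Ultrafilter ℕ)
        (fun k => ∑ i, b k l i * t' i k + esum α (v k l)) ∈ L' := by
      rw [heq l t']
      refine L'.add_mem (L'.sum_mem fun i _ => L'.mul_mem (hLL (hbL l i)) (by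
        rw [ht']; exact hsL i)) (L'.add_mem (hLL (hvL l none)) (L'.sum_mem fun i _ =>
          L'.mul_mem (hLL (hvL l (some i))) (hLL (hx i))))
    have h5 : Sm h (cl (hyperfilter ℕ : Ultrafilter ℕ)
        (fun k => ∑ i, b k l i * t' i k + esum α (v k l))) := by
      rw [heq l t']
      have h6 : Sm h (∑ i, cl (hyperfilter ℕ : Ultrafilter ℕ) (fun k => b k l i) *
          (cl _ (t' i) - cl _ fun k => t k i)) := by
        refine Sm.sum h2 _ _ fun i _ => ?_
        rw [mul_comm, ht']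
        exact (hss i).mul h2 (hL _ (hbL l i))
      have h7 := h6.add h2 h3
      refine cast (congrArg (Sm h) ?_) h7
      simp only [mul_sub, Finset.sum_sub_distrib]
      ring
    have h8 := h5.eq_zero_of_mem h2 hL' h4
    rw [← map_zero (cl (hyperfilter ℕ : Ultrafilter ℕ))] at h8
    exact cl_eq.1 h8
  obtain ⟨k, hk⟩ := (Filter.eventually_all.2 hexact).exists
  obtain ⟨c, hc1, ⟨l, hl⟩, hc3, hc4⟩ := exact_dependent α hα h0 hinj (fun i => t' i k) (b k) (v k)
    (fun l i => algH_one_mem (hb k l i)) (fun l o => algH_one_mem (hv k l o)) hk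
  obtain ⟨o, ho⟩ := hno k c hc1 ⟨l, hl⟩ hc3
  exact ho (hc4 o)

end H596.U
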