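import Pool.Agent.H596.U.Tr

/-!
# Exponentials of algebraic numbers have a measure; windows of good scales
-/

open Filter

namespace H596.U

open Pool.Agent.H596.Q in
theorem meas_exp {σ : Type} [Fintype σ] (α : σ → ℂ) (hα : ∀ i, IsAlgebraic ℚ (α i)) :
    Meas fun i => Complex.exp (α i) := by
  classical
  intro d
  obtain ⟨K, _, _, _, v, a, ha⟩ := exists_field α hα
  obtain ⟨κ, c, hc, hq⟩ := qlw v ((box σ d).image (wt a))
  have hcard : 1 ≤ ((box σ d).card : ℝ) := by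
    have h1 : (0 : σ →₀ ℕ) ∈ box σ d := mem_box d 0 fun i => by simp
    exact_mod_cast Finset.card_pos.2 ⟨_, h1⟩
  refine ⟨c / ((box σ d).card : ℝ) ^ κ, by positivity, κ, fun H hH P hP hPH h0 => ?_⟩
  have hE : E v (iota a P) = MvPolynomial.aeval (fun i => Complex.exp (α i)) P := by
    rw [E_iota]
    simp only [ha]
  rw [← hE] at h0 ⊢
  have hdeg : ∀ i, P.degreeOf i ≤ d := fun i => (MvPolynomial.degreeOf_le_totalDegree P i).trans hP
  have h1 := hq (iota a P) (fun h => h0 (by rw [h, map_zero])) (iota_support a d P hdeg)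
    (((box σ d).card : ℝ) * H) (by nlinarith) (iota_L1 a d P hdeg H (by linarith) hPH)
  rw [div_le_iff₀ (by positivity)]
  calc c ≤ (((box σ d).card : ℝ) * H) ^ κ * ‖E v (iota a P)‖ := h1
    _ = ‖E v (iota a P)‖ * H ^ κ * ((box σ d).card : ℝ) ^ κ := by rw [mul_pow]; ring

theorem windows {σ : Type} [Fintype σ] {x : σ → ℂ} (hx : Meas x) (t : ℂ)
    (ht : ∀ P : MvPolynomial (Unit ⊕ σ) ℤ, MvPolynomial.aeval (Sum.elim (fun _ => t) x) P = 0 →
      spec x P = 0) (d A : ℕ) :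
    ∃ k : ℕ, ∀ X₀ : ℝ, ∃ X : ℝ, X₀ ≤ X ∧ 2 ≤ X ∧ ∀ H : ℝ, X ≤ H → H ≤ X ^ A →
      ∀ P : MvPolynomial (Unit ⊕ σ) ℤ, P.totalDegree ≤ d → (∀ m, |((P.coeff m : ℤ) : ℝ)| ≤ H) →
      MvPolynomial.aeval (Sum.elim (fun _ => t) x) P ≠ 0 →
      1 < ‖MvPolynomial.aeval (Sum.elim (fun _ => t) x) P‖ * H ^ k := by
  classical
  obtain ⟨ks, hks⟩ := separation hx d
  obtain ⟨B, hB⟩ := pow_unbounded_of_one_lt ‖t‖ (one_lt_two : (1 : ℝ) < 2)
  obtain ⟨k₁, hk₁⟩ := transfer (τ := Unit) hx d B (ks + 1)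
  refine ⟨2 * A * k₁ + k₁, ?_⟩
  by_contra hcon
  push Not at hcon
  obtain ⟨X₀, hcon⟩ := hcon
  choose! f hf1 hf2 P hPd hPH hP0 hPs using hcon
  obtain ⟨a, a0, aS⟩ : ∃ a : ℕ → ℝ, a 0 = max X₀ 2 ∧ ∀ n, a (n + 1) = f (a n) + 1 :=
    ⟨fun n => Nat.rec (max X₀ 2) (fun _ b => f b + 1) n, rfl, fun _ => rfl⟩
  have ha : ∀ n : ℕ, max X₀ 2 + n ≤ a n := by
    intro n
    induction n with
    | zero => simp [a0]
    | succ n ih =>
      have h1 : X₀ ≤ a n := (le_max_left _ _).trans (by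
        have : (0 : ℝ) ≤ n := Nat.cast_nonneg n
        linarith)
      have h3 : 2 ≤ a n := (le_max_right X₀ 2).trans (by
        have : (0 : ℝ) ≤ n := Nat.cast_nonneg n
        linarith)
      have h4 := hf1 (a n) h1 h3
      rw [aS]
      push_cast
      linarith
  have ha1 : ∀ n, X₀ ≤ a n := fun n => (le_max_left _ _).trans (by
    have : (0 : ℝ) ≤ n := Nat.cast_nonneg n
    linarith [ha n])
  have ha2 : ∀ n, 2 ≤ a n := fun n => (le_max_right X₀ 2).trans (by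
    have : (0 : ℝ) ≤ n := Nat.cast_nonneg n
    linarith [ha n])
  -- the scales
  obtain ⟨h, hdef⟩ : ∃ h : ℕ → ℝ, ∀ n, h n = f (a n) := ⟨fun n => f (a n), fun _ => rfl⟩
  have hPH' : ∀ n, ∀ m, |(((P (a n)).coeff m : ℤ) : ℝ)| ≤ h n := fun n => by
    rw [hdef]
    exact hPH _ (ha1 n) (ha2 n)
  have hPs' : ∀ n, ‖MvPolynomial.aeval (Sum.elim (fun _ => t) x) (P (a n))‖ *
      h n ^ (2 * A * k₁ + k₁) ≤ 1 := fun n => by
    rw [hdef]
    exact hPs _ (ha1 n) (ha2 n)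
  have hPd' : ∀ n, (P (a n)).totalDegree ≤ d := fun n => hPd _ (ha1 n) (ha2 n)
  have hah : ∀ n, a n ≤ h n := fun n => by
    rw [hdef]
    exact hf1 (a n) (ha1 n) (ha2 n)
  have hh2 : ∀ n, 2 ≤ h n := fun n => (ha2 n).trans (hah n)
  have hhS : ∀ n, h n ≤ h (n + 1) := fun n => by
    have := hah (n + 1)
    rw [aS, ← hdef] at this
    linarith
  have hhA : ∀ n, h (n + 1) ≤ h n ^ (2 * A) := fun n => by
    have h1 := hf2 (a (n + 1)) (ha1 (n + 1)) (ha2 (n + 1))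
    rw [← hdef] at h1
    refine h1.trans ?_
    rw [pow_mul]
    refine pow_le_pow_left₀ (by linarith [ha2 (n + 1)]) ?_ A
    rw [aS, ← hdef]
    nlinarith [hh2 n]
  have hroot : ∀ n, ∃ z : ℂ, ‖z - t‖ * h (n + 1) ^ (ks + 1) ≤ 1 ∧
      MvPolynomial.aeval (Sum.elim (fun _ => z) x) (P (a n)) = 0 ∧
      MvPolynomial.aeval (Sum.elim (fun _ => z) x) (P (a (n + 1))) = 0 := by
    intro n
    obtain ⟨t', ht1, ht2⟩ := hk₁ (h (n + 1)) (hh2 _) (fun _ => t) (fun _ =>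
      hB.le.trans (pow_le_pow_left₀ (by norm_num) (hh2 (n + 1)) B))
    have hfun : t' = fun _ => t' () := by
      funext u
      rfl
    have h1 : (1 : ℝ) ≤ h (n + 1) := by linarith [hh2 (n + 1)]
    have h1' : (1 : ℝ) ≤ h n := by linarith [hh2 n]
    refine ⟨t' (), ht1 (), ?_, ?_⟩
    · have h3 := (ht2 (P (a n)) (hPd' n) (fun m => (hPH' n m).trans (hhS n))).2 ?_
      · rwa [hfun] at h3
      · refine le_trans ?_ (hPs' n)
        refine mul_le_mul_of_nonneg_left ?_ (norm_nonneg _)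
        calc h (n + 1) ^ k₁ ≤ (h n ^ (2 * A)) ^ k₁ :=
              pow_le_pow_left₀ (by linarith) (hhA n) _
          _ = h n ^ (2 * A * k₁) := by rw [← pow_mul]
          _ ≤ _ := pow_le_pow_right₀ h1' (by omega)
    · have h3 := (ht2 (P (a (n + 1))) (hPd' (n + 1)) (hPH' (n + 1))).2 ?_
      · rwa [hfun] at h3
      · refine le_trans ?_ (hPs' (n + 1))
        refine mul_le_mul_of_nonneg_left ?_ (norm_nonneg _)
        exact pow_le_pow_right₀ h1 (by omega)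
  choose z hz1 hz2 hz3 using hroot
  have hsp : ∀ n, spec x (P (a n)) ≠ 0 := by
    intro n h0
    apply hP0 _ (ha1 n) (ha2 n)
    rw [← eval_spec, h0, Polynomial.eval_zero]
  have hzS : ∀ n, z n = z (n + 1) := by
    intro n
    refine hks (h (n + 1)) (hh2 (n + 1)) (z n) (z (n + 1)) (P (a (n + 1))) (P (a (n + 1)))
      (hPd' (n + 1)) (hPd' (n + 1)) (hPH' (n + 1)) (hPH' (n + 1)) (hsp (n + 1)) (hsp (n + 1))
      (hz3 n) (hz2 (n + 1)) ?_
    have h3 := hz1 n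
    have h4 := hz1 (n + 1)
    have h5 : 0 ≤ h (n + 1) ^ ks := by have := hh2 (n + 1); positivity
    have h6 : ‖z (n + 1) - t‖ * h (n + 1) ^ (ks + 1) ≤ 1 :=
      (mul_le_mul_of_nonneg_left (pow_le_pow_left₀ (by linarith [hh2 (n + 1)])
        (hhS (n + 1)) _) (norm_nonneg _)).trans h4
    have h7 : ‖z n - z (n + 1)‖ ≤ ‖z n - t‖ + ‖z (n + 1) - t‖ := by
      have : z n - z (n + 1) = (z n - t) - (z (n + 1) - t) := by ring
      rw [this]
      exact norm_sub_le _ _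
    rw [pow_succ, ← mul_assoc] at h3 h6
    have h8 : ‖z n - t‖ * h (n + 1) ^ ks * 2 ≤ 1 :=
      (mul_le_mul_of_nonneg_left (hh2 (n + 1)) (by positivity)).trans h3
    have h9 : ‖z (n + 1) - t‖ * h (n + 1) ^ ks * 2 ≤ 1 :=
      (mul_le_mul_of_nonneg_left (hh2 (n + 1)) (by positivity)).trans h6
    nlinarith
  have hz0 : ∀ n, z n = z 0 := by
    intro n
    induction n with
    | zero => rfl
    | succ n ih => rw [← hzS n, ih]
  have hzt : z 0 = t := by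
    by_contra hne
    have hpos : 0 < ‖z 0 - t‖ := norm_pos_iff.2 (sub_ne_zero.2 hne)
    obtain ⟨n, hn⟩ := exists_nat_gt (‖z 0 - t‖)⁻¹
    have h3 := hz1 n
    rw [hz0 n] at h3
    have h4 : (n : ℝ) ≤ h (n + 1) := by
      have := ha (n + 1)
      have h5 := hah (n + 1)
      push_cast at this
      linarith [le_max_right X₀ 2]
    have h5 : h (n + 1) ≤ h (n + 1) ^ (ks + 1) :=
      le_self_pow₀ (by linarith [hh2 (n + 1)]) (by omega)
    have h6 : ‖z 0 - t‖ * h (n + 1) ≤ 1 := (mul_le_mul_of_nonneg_left h5 hpos.le).trans h3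
    have h7 : h (n + 1) ≤ (‖z 0 - t‖)⁻¹ := by
      rw [le_inv_comm₀ (by linarith [hh2 (n + 1)]) hpos, ← one_div,
        le_div_iff₀ (by linarith [hh2 (n + 1)])]
      exact h6
    linarith
  apply hsp 0
  apply ht
  rw [← hzt]
  exact hz2 0

end H596.U
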